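import Pool.Agent.Helper98.T.LemS

/-!
Functions of one real: identification, separation, the canonical form (section 7).
-/

set_option autoImplicit false

open Filter Topology

namespace Pool.Agent.Helper98.T

/-- `z` is a branch of `X` from level `k` on -/
def Br (k : ℕ) (X : ℕ → Finset H) (z : ℕ → H) : Prop := ∀ i, k ≤ i → z i ∈ X i

/-- place the finite sequence `y` at the places from `m` on -/
def pl (m : ℕ) (y : List H) (z : ℕ → H) : ℕ → H :=
  fun i => if h : m ≤ i ∧ i - m < y.length then y[i - m]'h.2 else z i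

/-- `u` followed by `z` -/
def gl (u : List H) (z : ℕ → H) : ℕ → H := fun i => if h : i < u.length then u[i] else z i

theorem gl_lt {u : List H} {z : ℕ → H} {i : ℕ} (h : i < u.length) : gl u z i = u[i] := by
  rw [gl, dif_pos h]

theorem gl_ge {u : List H} {z : ℕ → H} {i : ℕ} (h : u.length ≤ i) : gl u z i = z i := by
  rw [gl, dif_neg (by omega)]

theorem pl_mid {m : ℕ} {y : List H} {z : ℕ → H} {i : ℕ} (h : m ≤ i) (h' : i - m < y.length) :
    pl m y z i = y[i - m] := by
  rw [pl, dif_pos ⟨h, h'⟩]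

theorem pl_lt {m : ℕ} {y : List H} {z : ℕ → H} {i : ℕ} (h : i < m) : pl m y z i = z i := by
  rw [pl, dif_neg (by omega)]

theorem pl_ge {m : ℕ} {y : List H} {z : ℕ → H} {i : ℕ} (h : m + y.length ≤ i) :
    pl m y z i = z i := by
  rw [pl, dif_neg (by omega)]

theorem gl_append {u y : List H} {z : ℕ → H} : gl (u ++ y) z = gl u (pl u.length y z) := by
  funext i
  rcases Nat.lt_or_ge i u.length with h | h
  · rw [gl_lt h, gl_lt (by rw [List.length_append]; omega), List.getElem_append_left h]
  · rw [gl_ge h]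
    rcases Nat.lt_or_ge i (u.length + y.length) with h1 | h1
    · rw [gl_lt (by rw [List.length_append]; omega), pl_mid h (by omega),
        List.getElem_append_right h]
    · rw [gl_ge (by rw [List.length_append]; omega), pl_ge h1]

theorem Br.mono {k : ℕ} {X X' : ℕ → Finset H} {z : ℕ → H} (h : Br k X' z) (hX : LeX k X' X) :
    Br k X z := fun i hi => hX i hi (h i hi)

theorem Br.mono_level {k k' : ℕ} {X : ℕ → Finset H} {z : ℕ → H} (h : Br k X z)
    (hk : k ≤ k') : Br k' X z := fun i hi => h i (hk.trans hi)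

theorem Br.pl {m : ℕ} {X : ℕ → Finset H} {y : List H} {z : ℕ → H} (hy : IsPath X m y)
    (hz : Br (m + y.length) X z) : Br m X (pl m y z) := by
  intro i hi
  rcases Nat.lt_or_ge i (m + y.length) with h | h
  · rw [pl_mid hi (by omega)]
    have := (isPath_iff_get.1 hy) (i - m) (by omega)
    rwa [show m + (i - m) = i by omega] at this
  · rw [pl_ge h]
    exact hz i h

theorem Br.gl {X : ℕ → Finset H} {u : List H} {z : ℕ → H} (hu : IsPath X 0 u)
    (hz : Br u.length X z) : Br 0 X (gl u z) := by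
  intro i _
  rcases Nat.lt_or_ge i u.length with h | h
  · rw [gl_lt h]
    have := (isPath_iff_get.1 hu) i h
    rwa [Nat.zero_add] at this
  · rw [gl_ge h]
    exact hz i h

/-- the initial segment `(z k, …, z (m-1))` -/
def seg (z : ℕ → H) (k m : ℕ) : List H := (List.range' k (m - k)).map z

theorem seg_length (z : ℕ → H) (k m : ℕ) : (seg z k m).length = m - k := by
  rw [seg, List.length_map, List.length_range']

theorem seg_get (z : ℕ → H) (k m : ℕ) (i : ℕ) (h : i < (seg z k m).length) :
    (seg z k m)[i] = z (k + i) := by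
  simp [seg]

theorem seg_isPath {X : ℕ → Finset H} {z : ℕ → H} {k m : ℕ}
    (h : ∀ i, k ≤ i → i < m → z i ∈ X i) : IsPath X k (seg z k m) := by
  rw [isPath_iff_get]
  intro i hi
  rw [seg_get]
  rw [seg_length] at hi
  exact h _ (by omega) (by omega)

theorem gl_seg {z z' : ℕ → H} {m i : ℕ} : gl (seg z 0 m) z' i = if i < m then z i else z' i := by
  by_cases h : i < m
  · rw [if_pos h, gl_lt (by rw [seg_length]; omega), seg_get, Nat.zero_add]
  · rw [if_neg h, gl_ge (by rw [seg_length]; omega)]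

/-- continuity on the branches of `X` -/
def ContX (g : (ℕ → H) → ℕ → Bool) (X : ℕ → Finset H) : Prop :=
  ∀ z, Br 0 X z → ∀ j, ∃ m, ∀ z', Br 0 X z' → (∀ i < m, z' i = z i) → g z' j = g z j

theorem ContX.mono {g : (ℕ → H) → ℕ → Bool} {X X' : ℕ → Finset H} (h : ContX g X)
    (hX : LeX 0 X' X) : ContX g X' := by
  intro z hz j
  obtain ⟨m, hm⟩ := h z (hz.mono hX) j
  exact ⟨m, fun z' hz' h1 => hm z' (hz'.mono hX) h1⟩

/-- identification of two finite sequences of length `m` -/
def Sim (g : (ℕ → H) → ℕ → Bool) (X : ℕ → Finset H) (m : ℕ) (u u' : List H) : Prop :=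
  ∀ z, Br m X z → g (gl u z) = g (gl u' z)

/-- separation of two finite sequences of length `m` -/
def Sep (g : (ℕ → H) → ℕ → Bool) (X : ℕ → Finset H) (m : ℕ) (u u' : List H) : Prop :=
  ∃ j b, ∀ z, Br m X z → g (gl u z) j = b ∧ g (gl u' z) j = !b

variable {g : (ℕ → H) → ℕ → Bool} {X X' : ℕ → Finset H}

theorem Sim.mono {m : ℕ} {u u' : List H} (h : Sim g X m u u') (hX : LeX m X' X) :
    Sim g X' m u u' := fun z hz => h z (hz.mono hX)

theorem Sep.mono {m : ℕ} {u u' : List H} (h : Sep g X m u u') (hX : LeX m X' X) :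
    Sep g X' m u u' := by
  obtain ⟨j, b, h⟩ := h
  exact ⟨j, b, fun z hz => h z (hz.mono hX)⟩

theorem Sim.append {m : ℕ} {u u' y : List H} (h : Sim g X m u u') (hu : u.length = m)
    (hu' : u'.length = m) (hy : IsPath X m y) :
    Sim g X (m + y.length) (u ++ y) (u' ++ y) := by
  intro z hz
  rw [gl_append, gl_append, hu, hu']
  exact h _ (Br.pl hy hz)

theorem Sep.append {m : ℕ} {u u' y : List H} (h : Sep g X m u u') (hu : u.length = m)
    (hu' : u'.length = m) (hy : IsPath X m y) :
    Sep g X (m + y.length) (u ++ y) (u' ++ y) := by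
  obtain ⟨j, b, h⟩ := h
  refine ⟨j, b, fun z hz => ?_⟩
  rw [gl_append, gl_append, hu, hu']
  exact h _ (Br.pl hy hz)

theorem exists_decide (hg : ContX g X) {m : ℕ} {u u' : List H}
    (hu : IsPath X 0 u) (hu' : IsPath X 0 u') (hum : u.length = m) (hum' : u'.length = m) :
    ∃ y, IsPath X m y ∧ (Sim g X (m + y.length) (u ++ y) (u' ++ y) ∨
      Sep g X (m + y.length) (u ++ y) (u' ++ y)) := by
  by_cases h : Sim g X m u u'
  · exact ⟨[], trivial, Or.inl (h.append hum hum' trivial)⟩
  · unfold Sim at h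
    push Not at h
    obtain ⟨z, hz, hne⟩ := h
    obtain ⟨j, hj⟩ : ∃ j, g (gl u z) j ≠ g (gl u' z) j := by
      by_contra hcon
      push Not at hcon
      exact hne (funext hcon)
    have hb1 : Br 0 X (gl u z) := Br.gl hu (by rw [hum]; exact hz)
    have hb2 : Br 0 X (gl u' z) := Br.gl hu' (by rw [hum']; exact hz)
    obtain ⟨m1, h1⟩ := hg _ hb1 j
    obtain ⟨m2, h2⟩ := hg _ hb2 j
    set M := max m (max m1 m2) with hM
    have hmM : m ≤ M := le_max_left _ _
    have hyl : (seg z m M).length = M - m := seg_length _ _ _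
    have hy : IsPath X m (seg z m M) := seg_isPath fun i hi _ => hz i hi
    refine ⟨seg z m M, hy, Or.inr ⟨j, g (gl u z) j, fun z' hz' => ?_⟩⟩
    have hbr : Br m X (pl m (seg z m M) z') := Br.pl hy hz'
    have hagree : ∀ i < M, ∀ w : List H, w.length = m →
        gl w (pl m (seg z m M) z') i = gl w z i := by
      intro i hi w hw
      rcases Nat.lt_or_ge i m with h3 | h3
      · rw [gl_lt (by omega), gl_lt (by omega)]
      · rw [gl_ge (by omega), gl_ge (by omega), pl_mid h3 (by omega), seg_get,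
          show m + (i - m) = i by omega]
    constructor
    · rw [gl_append, hum]
      refine h1 _ (Br.gl hu (by rw [hum]; exact hbr)) fun i hi => hagree i ?_ u hum
      exact lt_of_lt_of_le hi ((le_max_left _ _).trans (le_max_right _ _))
    · rw [gl_append, hum']
      have h3 : g (gl u' (pl m (seg z m M) z')) j = g (gl u' z) j := by
        refine h2 _ (Br.gl hu' (by rw [hum']; exact hbr)) fun i hi => hagree i ?_ u' hum'
        exact lt_of_lt_of_le hi ((le_max_right _ _).trans (le_max_right _ _))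
      rw [h3]
      revert hj
      cases g (gl u z) j <;> cases g (gl u' z) j <;> simp

theorem exists_decide_all (hg : ContX g X) {m : ℕ} (S : Finset (List H × List H)) :
    (∀ p ∈ S, IsPath X 0 p.1 ∧ IsPath X 0 p.2 ∧ p.1.length = m ∧ p.2.length = m) →
    ∃ y, IsPath X m y ∧ ∀ p ∈ S, (Sim g X (m + y.length) (p.1 ++ y) (p.2 ++ y) ∨
      Sep g X (m + y.length) (p.1 ++ y) (p.2 ++ y)) := by
  classical
  induction S using Finset.induction_on with
  | empty => exact fun _ => ⟨[], trivial, fun p hp => (Finset.notMem_empty p hp).elim⟩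
  | insert a S ha ih =>
    intro h
    obtain ⟨y, hy, h1⟩ := ih fun p hp => h p (Finset.mem_insert_of_mem hp)
    obtain ⟨h2, h3, h4, h5⟩ := h a (Finset.mem_insert_self _ _)
    obtain ⟨y', hy', h6⟩ := exists_decide hg (m := m + y.length) (u := a.1 ++ y)
      (u' := a.2 ++ y) (isPath_append.2 ⟨h2, by rw [Nat.zero_add, h4]; exact hy⟩)
      (isPath_append.2 ⟨h3, by rw [Nat.zero_add, h5]; exact hy⟩)
      (by rw [List.length_append, h4]) (by rw [List.length_append, h5])
    refine ⟨y ++ y', isPath_append.2 ⟨hy, hy'⟩, fun p hp => ?_⟩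
    rw [List.length_append, ← Nat.add_assoc, ← List.append_assoc, ← List.append_assoc]
    rcases Finset.mem_insert.1 hp with rfl | hp
    · exact h6
    · obtain ⟨_, _, h9, h10⟩ := h p (Finset.mem_insert_of_mem hp)
      rcases h1 p hp with h11 | h11
      · exact Or.inl (h11.append (by rw [List.length_append, h9])
          (by rw [List.length_append, h10]) hy')
      · exact Or.inr (h11.append (by rw [List.length_append, h9])
          (by rw [List.length_append, h10]) hy')

theorem canonical_multi {ι : Type*} (S : Finset ι) (M : ℕ) : ∃ N, M ≤ N ∧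
    ∀ (V : Finset H) (E : ι → H → H → Prop), Large N V → (∀ i, Equivalence (E i)) →
    ∃ W, W ⊆ V ∧ (∃ e, Ex M M W e) ∧
      ∀ i ∈ S, ∃ n, ∀ v ∈ W, ∀ w ∈ W, (E i v w ↔ EqN n v w) := by
  classical
  induction S using Finset.induction_on with
  | empty =>
    refine ⟨M, le_rfl, fun V E hV _ => ?_⟩
    obtain ⟨e, he⟩ := hV
    obtain ⟨W, hW, hex⟩ := he.exists_ex
    exact ⟨W, hW, ⟨e, hex⟩, fun i hi => (Finset.notMem_empty i hi).elim⟩
  | insert a S ha ih =>
    obtain ⟨N, hMN, hN⟩ := ih
    obtain ⟨N', hN'⟩ := canonical N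
    refine ⟨max M N', le_max_left _ _, fun V E hV hE => ?_⟩
    obtain ⟨W, e, n, h1, h2, _, h3⟩ := hN' V (E a) (hV.anti (le_max_right _ _))
      (fun v _ => (hE a).refl v) (fun v _ w _ h => (hE a).symm h)
      (fun v _ w _ u _ h h' => (hE a).trans h h')
    obtain ⟨W', h4, h5, h6⟩ := hN W E ⟨e, h2.lg⟩ hE
    refine ⟨W', h4.trans h1, h5, fun i hi => ?_⟩
    rcases Finset.mem_insert.1 hi with rfl | hi
    · exact ⟨n, fun v hv w hw => h3 v (h4 hv) w (h4 hw)⟩
    · exact h6 i hi

/-- `Z` below `i` and `X` from `i` on -/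
def jn (Z : ℕ → Finset H) (i : ℕ) (X : ℕ → Finset H) : ℕ → Finset H :=
  fun l => if l < i then Z l else X l

theorem jn_lt {Z X : ℕ → Finset H} {i l : ℕ} (h : l < i) : jn Z i X l = Z l := if_pos h

theorem jn_ge {Z X : ℕ → Finset H} {i l : ℕ} (h : i ≤ l) : jn Z i X l = X l :=
  if_neg (by omega)

theorem jn_congr {Z Z' X : ℕ → Finset H} {i : ℕ} (h : ∀ l < i, Z' l = Z l) :
    jn Z' i X = jn Z i X := by
  funext l
  rcases Nat.lt_or_ge l i with h1 | h1
  · rw [jn_lt h1, jn_lt h1, h l h1]
  · rw [jn_ge h1, jn_ge h1]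

/-- following the path `y`, identified by singletons -/
theorem gl_eq_of_sing {w y : List H} {m : ℕ} {Z : ℕ → Finset H} {z : ℕ → H}
    (hw : w.length = m) (hZ : ∀ (i : ℕ) (h : i < y.length), Z (m + i) = {y[i]})
    (hz : ∀ i, m ≤ i → i < m + y.length → z i ∈ Z i) : gl (w ++ y) z = gl w z := by
  rw [gl_append]
  funext i
  rcases Nat.lt_or_ge i m with h | h
  · rw [gl_lt (by omega), gl_lt (by omega)]
  · rw [gl_ge (by omega), gl_ge (by omega)]
    rcases Nat.lt_or_ge i (m + y.length) with h1 | h1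
    · rw [pl_mid (by omega) (by omega)]
      have h2 := hz i h h1
      have h3 := hZ (i - m) (by omega)
      rw [show m + (i - m) = i by omega] at h3
      rw [h3, Finset.mem_singleton] at h2
      rw [h2]
      simp only [hw]
    · rw [pl_ge (by omega)]

end Pool.Agent.Helper98.T
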