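import Pool.Agent.Helper98.T.FunA

/-!
Functions of one real: canonical levels (7.2).
-/

set_option autoImplicit false

open Filter Topology

namespace Pool.Agent.Helper98.T

variable {g : (ℕ → H) → ℕ → Bool} {X X' : ℕ → Finset H}

/-- the level `ν` describes the behaviour of `g` at `u` in `X` -/
def Lev (g : (ℕ → H) → ℕ → Bool) (X : ℕ → Finset H) (u : List H) (V : Finset H) (ν : ℕ) : Prop :=
  ∀ v ∈ V, ∀ v' ∈ V, (EqN ν v v' → Sim g X (u.length + 1) (u ++ [v]) (u ++ [v'])) ∧
    (¬ EqN ν v v' → Sep g X (u.length + 1) (u ++ [v]) (u ++ [v']))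

theorem Lev.mono {u : List H} {V V' : Finset H} {ν : ℕ} (h : Lev g X u V ν)
    (hX : LeX (u.length + 1) X' X) (hV : V' ⊆ V) : Lev g X' u V' ν := by
  intro v hv v' hv'
  obtain ⟨h1, h2⟩ := h v (hV hv) v' (hV hv')
  exact ⟨fun h => (h1 h).mono hX, fun h => (h2 h).mono hX⟩

theorem lev_singleton {u : List H} (v : H) : Lev g X u {v} 0 := by
  intro w hw w' hw'
  rw [Finset.mem_singleton.1 hw, Finset.mem_singleton.1 hw']
  exact ⟨fun _ z _ => rfl, fun h => (h (EqN.refl _ _)).elim⟩

/-- one stage of the fusion -/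
theorem exists_lev_stage (hX : IsXX 0 X) (hg : ContX g X) {i : ℕ} {Z : ℕ → Finset H}
    (hZ : ∀ l < i, Z l ⊆ X l ∧ (Z l).Nonempty) (n : ℕ) :
    ∃ i' > i, ∃ Z' : ℕ → Finset H, (∀ l < i, Z' l = Z l) ∧
      (∀ l < i', Z' l ⊆ X l ∧ (Z' l).Nonempty) ∧
      (∃ l < i', i ≤ l ∧ Large n (Z' l)) ∧
      (∀ l < i', i ≤ l → ∃ N e, N ≠ 1 ∧ Ex N N (Z' l) e) ∧
      ∀ u, IsPath Z' 0 u → i ≤ u.length → u.length < i' →
        ∃ ν, Lev g (jn Z' i' X) u (Z' u.length) ν := by
  classical
  have hpt : ∀ l, ∃ v, v ∈ X l := fun l => hX.1 l (Nat.zero_le _)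
  choose pt hpt using hpt
  set U := pathsF Z i 0 with hU
  obtain ⟨N, hMN, hN⟩ := canonical_multi U (n + 2)
  obtain ⟨m, him, hm⟩ := (frequently_atTop.1 (hX.2 N)) i
  set τ : List H := seg pt i m with hτ
  have hτl : τ.length = m - i := seg_length _ _ _
  have hτp : IsPath X i τ := seg_isPath fun l _ _ => hpt l
  -- paths of length `m`
  have hUp : ∀ u ∈ U, IsPath X 0 (u ++ τ) ∧ (u ++ τ).length = m := by
    intro u hu
    obtain ⟨h1, h2⟩ := mem_pathsF.1 hu
    refine ⟨isPath_append.2 ⟨h2.mono fun l _ hl => (hZ l (by omega)).1, ?_⟩, ?_⟩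
    · rw [h1, Nat.zero_add]
      exact hτp
    · rw [List.length_append, h1, hτl]
      omega
  set S : Finset (List H × List H) := (U ×ˢ (X m ×ˢ X m)).image
    (fun p => (p.1 ++ τ ++ [p.2.1], p.1 ++ τ ++ [p.2.2])) with hS
  obtain ⟨y, hy, hyS⟩ := exists_decide_all hg (m := m + 1) S (by
    intro p hp
    obtain ⟨⟨u, v, v'⟩, hq, rfl⟩ := Finset.mem_image.1 hp
    obtain ⟨hu, hv⟩ := Finset.mem_product.1 hq
    obtain ⟨hv, hv'⟩ := Finset.mem_product.1 hv
    obtain ⟨h1, h2⟩ := hUp u hu
    refine ⟨isPath_append.2 ⟨h1, ?_, trivial⟩, isPath_append.2 ⟨h1, ?_, trivial⟩, ?_, ?_⟩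
    · rw [h2, Nat.zero_add]
      exact hv
    · rw [h2, Nat.zero_add]
      exact hv'
    · simp only [List.length_append, List.length_singleton] at h2 ⊢
      omega
    · simp only [List.length_append, List.length_singleton] at h2 ⊢
      omega)
  set m' := m + 1 + y.length with hm'
  obtain ⟨W, hW, ⟨e, hWe⟩, hWE⟩ := hN (X m) (fun u v v' => Sim g X m' (u ++ τ ++ [v] ++ y)
    (u ++ τ ++ [v'] ++ y)) hm (fun u => ⟨fun v z _ => rfl, fun h z hz => (h z hz).symm,
      fun h h' z hz => (h z hz).trans (h' z hz)⟩)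
  set Z' : ℕ → Finset H := fun l => if l < i then Z l else if l < m then {pt l}
    else if l < m + 1 then W else {y.getD (l - (m + 1)) 0} with hZ'
  have hZlt : ∀ l < i, Z' l = Z l := fun l hl => if_pos hl
  have hZmid : ∀ l, i ≤ l → l < m → Z' l = {pt l} := by
    intro l h5 h6
    simp only [hZ']
    rw [if_neg (by omega), if_pos h6]
  have hZm : Z' m = W := by
    simp only [hZ']
    rw [if_neg (by omega), if_neg (by omega), if_pos (by omega)]
  have hZy : ∀ l, m + 1 ≤ l → Z' l = {y.getD (l - (m + 1)) 0} := by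
    intro l hl
    simp only [hZ']
    rw [if_neg (by omega), if_neg (by omega), if_neg (by omega)]
  have hWne : W.Nonempty := hWe.nonempty (by omega)
  have hZX : ∀ l < m', Z' l ⊆ X l ∧ (Z' l).Nonempty := by
    intro l hl
    rcases Nat.lt_or_ge l i with h5 | h5
    · rw [hZlt l h5]
      exact hZ l h5
    · rcases Nat.lt_or_ge l m with h6 | h6
      · rw [hZmid l h5 h6]
        exact ⟨Finset.singleton_subset_iff.2 (hpt l), Finset.singleton_nonempty _⟩
      · rcases Nat.lt_or_ge l (m + 1) with h7 | h7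
        · have h8 : l = m := by omega
          rw [h8, hZm]
          exact ⟨hW, hWne⟩
        · rw [hZy l h7]
          refine ⟨?_, Finset.singleton_nonempty _⟩
          rw [Finset.singleton_subset_iff, List.getD_eq_getElem _ _ (by omega)]
          have := (isPath_iff_get.1 hy) (l - (m + 1)) (by omega)
          rwa [show m + 1 + (l - (m + 1)) = l by omega] at this
  have hpm : ∀ u, IsPath Z' 0 u → u.length = m → ∃ u' ∈ U, u = u' ++ τ := by
    intro u hu hul
    have hu' : IsPath Z' 0 (u.take i ++ u.drop i) := by rwa [List.take_append_drop]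
    rw [isPath_append] at hu'
    have hlen : (u.take i).length = i := by rw [List.length_take]; omega
    refine ⟨u.take i, ?_, ?_⟩
    · rw [hU, mem_pathsF]
      exact ⟨hlen, (IsPath.congr fun l _ hl => hZlt l (by omega)).1 hu'.1⟩
    · have h5 : u.drop i = τ := by
        apply List.ext_getElem
        · rw [List.length_drop, hul, hτl]
        · intro l h6 h7
          have h8 := (isPath_iff_get.1 hu'.2) l h6
          rw [hlen, Nat.zero_add, hZmid (i + l) (by omega) (by omega),
            Finset.mem_singleton] at h8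
          rw [h8]
          exact (seg_get _ _ _ _ _).symm
      conv_lhs => rw [← List.take_append_drop i u, h5]
  refine ⟨m', by omega, Z', hZlt, hZX, ⟨m, by omega, him, ?_⟩, fun l hl hil => ?_,
    fun u hu hiu hum => ?_⟩
  · rw [hZm]
    exact (show Large (n + 2) W from ⟨e, hWe.lg⟩).anti (by omega)
  · rcases Nat.lt_or_ge l m with h6 | h6
    · rw [hZmid l hil h6]
      exact ⟨0, pt l, by omega, rfl⟩
    · rcases Nat.lt_or_ge l (m + 1) with h7 | h7
      · have h8 : l = m := by omega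
        rw [h8, hZm]
        exact ⟨n + 2, e, by omega, hWe⟩
      · rw [hZy l h7]
        exact ⟨0, _, by omega, rfl⟩
  · rcases Nat.lt_or_ge u.length m with h6 | h6
    · rw [hZmid _ hiu h6]
      exact ⟨0, lev_singleton _⟩
    · rcases Nat.lt_or_ge u.length (m + 1) with h7 | h7
      · have h8 : u.length = m := by omega
        obtain ⟨u', hu', hueq⟩ := hpm u hu h8
        obtain ⟨ν, hν⟩ := hWE u' hu'
        refine ⟨ν, ?_⟩
        rw [h8, hZm]
        intro v hv v' hv'
        rw [h8, hueq]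
        have hlenm := (hUp u' hu').2
        have key : ∀ (w : H) (z : ℕ → H), Br (m + 1) (jn Z' m' X) z →
            gl (u' ++ τ ++ [w] ++ y) z = gl (u' ++ τ ++ [w]) z := by
          intro w z hz
          refine gl_eq_of_sing (m := m + 1) (Z := Z') ?_ ?_ ?_
          · rw [List.length_append, hlenm, List.length_singleton]
          · intro l hl
            rw [hZy _ (by omega), List.getD_eq_getElem _ _ (by omega)]
            congr 2
            omega
          · intro l h9 h10
            have := hz l h9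
            rwa [jn_lt (by omega)] at this
        have hbr : ∀ z, Br (m + 1) (jn Z' m' X) z → Br m' X z := by
          intro z hz l hl
          have := hz l (by omega)
          rwa [jn_ge hl] at this
        have hmem : ((u' ++ τ ++ [v], u' ++ τ ++ [v']) : List H × List H) ∈ S := by
          rw [hS, Finset.mem_image]
          exact ⟨(u', v, v'), Finset.mem_product.2 ⟨hu', Finset.mem_product.2
            ⟨hW hv, hW hv'⟩⟩, rfl⟩
        constructor
        · intro h9
          have h10 := (hν v hv v' hv').2 h9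
          intro z hz
          rw [← key v z hz, ← key v' z hz]
          exact h10 z (hbr z hz)
        · intro h9
          rcases hyS _ hmem with h10 | h10
          · exact (h9 ((hν v hv v' hv').1 h10)).elim
          · obtain ⟨j, b, h11⟩ := h10
            refine ⟨j, b, fun z hz => ?_⟩
            rw [← key v z hz, ← key v' z hz]
            exact h11 z (hbr z hz)
      · rw [hZy _ h7]
        exact ⟨0, lev_singleton _⟩

/-- (7.2) -/
theorem exists_lev (hX : IsXX 0 X) (hg : ContX g X) :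
    ∃ X', LeX 0 X' X ∧ IsXX 0 X' ∧ IsTidy 0 X' ∧
      ∀ u, IsPath X' 0 u → ∃ ν, Lev g X' u (X' u.length) ν := by
  classical
  set P : ℕ → ℕ → (ℕ → Finset H) → Prop := fun n i Z =>
    (∀ l < i, Z l ⊆ X l ∧ (Z l).Nonempty) ∧ n ≤ i ∧
      (n ≠ 0 → ∃ l < i, n ≤ l + 1 ∧ Large n (Z l)) ∧
      (∀ l < i, ∃ N e, N ≠ 1 ∧ Ex N N (Z l) e) ∧
      ∀ u, IsPath Z 0 u → u.length < i → ∃ ν, Lev g (jn Z i X) u (Z u.length) ν with hP
  have hcongr : ∀ n i Z Z', (∀ l < i, Z' l = Z l) → P n i Z → P n i Z' := by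
    rintro n i Z Z' hZ ⟨h1, h2, h3, h4, h5⟩
    refine ⟨fun l hl => ?_, h2, fun hn => ?_, fun l hl => ?_, fun u hu hl => ?_⟩
    · rw [hZ l hl]
      exact h1 l hl
    · obtain ⟨l, h6, h7, h8⟩ := h3 hn
      exact ⟨l, h6, h7, by rw [hZ l h6]; exact h8⟩
    · rw [hZ l hl]
      exact h4 l hl
    · rw [jn_congr hZ, hZ _ hl]
      exact h5 u ((IsPath.congr fun l _ hl' => hZ l (by omega)).1 hu) hl
  have h0 : P 0 0 X :=
    ⟨fun l hl => (Nat.not_lt_zero l hl).elim, le_rfl, fun h => (h rfl).elim,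
      fun l hl => (Nat.not_lt_zero l hl).elim, fun u _ hl => (Nat.not_lt_zero _ hl).elim⟩
  have hstep : ∀ n i Z, P n i Z → ∃ i' > i, ∃ Z', (∀ l < i, Z' l = Z l) ∧ P (n + 1) i' Z' := by
    rintro n i Z ⟨h1, h2, h3, h4, h5⟩
    obtain ⟨i', hi', Z', hZ1, hZ2, ⟨l0, hl0, hl1, hl2⟩, hZ3, hZ4⟩ :=
      exists_lev_stage hX hg h1 (n + 1)
    refine ⟨i', hi', Z', hZ1, hZ2, by omega, fun _ => ⟨l0, hl0, by omega, hl2⟩,
      fun l hl => ?_, fun u hu hul => ?_⟩
    · rcases Nat.lt_or_ge l i with h6 | h6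
      · rw [hZ1 l h6]
        exact h4 l h6
      · exact hZ3 l hl h6
    · rcases Nat.lt_or_ge u.length i with h6 | h6
      · obtain ⟨ν, hν⟩ := h5 u ((IsPath.congr fun l _ hl' => hZ1 l (by omega)).1 hu) h6
        refine ⟨ν, ?_⟩
        rw [hZ1 _ h6]
        refine hν.mono ?_ (Finset.Subset.refl _)
        intro l _
        rcases Nat.lt_or_ge l i with h7 | h7
        · rw [jn_lt (by omega), jn_lt h7, hZ1 l h7]
        · rw [jn_ge h7]
          rcases Nat.lt_or_ge l i' with h8 | h8
          · rw [jn_lt h8]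
            exact (hZ2 l h8).1
          · rw [jn_ge h8]
      · exact hZ4 u hu h6 hul
  obtain ⟨X1, L, hL1, _, hL3⟩ := exists_limit P hcongr 0 _ h0 hstep
  have hLn : ∀ n, n ≤ L n := fun n => hL1.id_le n
  have hlt : ∀ i, i < L (i + 1) := fun i => by have := hLn (i + 1); omega
  have hle : LeX 0 X1 X := fun i _ => ((hL3 (i + 1)).1 i (hlt i)).1
  refine ⟨X1, hle, ⟨fun i _ => ((hL3 (i + 1)).1 i (hlt i)).2, fun M => ?_⟩,
    fun i _ => (hL3 (i + 1)).2.2.2.1 i (hlt i), fun u hu => ?_⟩
  · rw [frequently_atTop]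
    intro a
    obtain ⟨l, _, h6, h7⟩ := (hL3 (max M (a + 1))).2.2.1 (by
      have := le_max_right M (a + 1)
      omega)
    refine ⟨l, ?_, h7.anti (le_max_left _ _)⟩
    have := le_max_right M (a + 1)
    omega
  · obtain ⟨ν, hν⟩ := (hL3 (u.length + 1)).2.2.2.2 u hu (hlt _)
    refine ⟨ν, hν.mono ?_ (Finset.Subset.refl _)⟩
    intro l _
    rcases Nat.lt_or_ge l (L (u.length + 1)) with h7 | h7
    · rw [jn_lt h7]
    · rw [jn_ge h7]
      exact hle l (Nat.zero_le _)

end Pool.Agent.Helper98.T
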