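import Pool.Agent.Helper98.T.LemW

/-!
The spaces `XX_k`, Lemma W and Lemma S.
-/

set_option autoImplicit false

open Filter Topology

namespace Pool.Agent.Helper98.T

/-- families of finite sets `(X i)_{i ≥ k}`, for each `M` infinitely many of them `M`-large -/
def IsXX (k : ℕ) (X : ℕ → Finset H) : Prop :=
  (∀ i, k ≤ i → (X i).Nonempty) ∧ ∀ M, ∃ᶠ i in atTop, Large M (X i)

/-- `X' ≤ X` on the places `≥ k` -/
def LeX (k : ℕ) (X' X : ℕ → Finset H) : Prop := ∀ i, k ≤ i → X' i ⊆ X i

theorem LeX.refl (k : ℕ) (X : ℕ → Finset H) : LeX k X X := fun _ _ => Finset.Subset.refl _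

theorem LeX.trans {k : ℕ} {X X' X'' : ℕ → Finset H} (h : LeX k X X') (h' : LeX k X' X'') :
    LeX k X X'' := fun i hi => (h i hi).trans (h' i hi)

theorem LeX.mono {k k' : ℕ} {X X' : ℕ → Finset H} (h : LeX k X X') (hk : k ≤ k') :
    LeX k' X X' := fun i hi => h i (hk.trans hi)

theorem IsXX.mono {k k' : ℕ} {X : ℕ → Finset H} (h : IsXX k X) (hk : k ≤ k') : IsXX k' X :=
  ⟨fun i hi => h.1 i (hk.trans hi), h.2⟩

theorem LeX.isPath {k : ℕ} {X' X : ℕ → Finset H} (h : LeX k X' X) {u : List H}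
    (hu : IsPath X' k u) : IsPath X k u := hu.mono fun i hi _ => h i hi

/-- all places are singletons or exact trees of branching at least two -/
def IsTidy (k : ℕ) (X : ℕ → Finset H) : Prop :=
  ∀ i, k ≤ i → ∃ N e, N ≠ 1 ∧ Ex N N (X i) e

theorem IsTidy.exact {k : ℕ} {X : ℕ → Finset H} (h : IsTidy k X) {i : ℕ} (hi : k ≤ i)
    (hc : 2 ≤ (X i).card) : ∃ N e, 2 ≤ N ∧ Ex N N (X i) e := by
  obtain ⟨N, e, h1, h2⟩ := h i hi
  refine ⟨N, e, ?_, h2⟩
  rcases N with _ | _ | N
  · rw [h2.card] at hc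
    simp at hc
  · exact (h1 rfl).elim
  · omega

theorem Large.le_card {M : ℕ} {V : Finset H} (h : Large M V) : M ≤ V.card := by
  obtain ⟨e, he⟩ := h
  obtain ⟨W, hW, hex⟩ := he.exists_ex
  refine le_trans ?_ (Finset.card_le_card hW)
  rw [hex.card]
  rcases Nat.eq_zero_or_pos M with h0 | h0
  · rw [h0]
    exact Nat.zero_le _
  · exact Nat.le_self_pow h0.ne' M

theorem exists_tidy {k : ℕ} {X : ℕ → Finset H} (h : IsXX k X) :
    ∃ X', LeX k X' X ∧ IsXX k X' ∧ IsTidy k X' := by
  classical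
  have h1 : ∀ i, ∃ V : Finset H, k ≤ i → (V ⊆ X i ∧ (∃ N e, N ≠ 1 ∧ Ex N N V e) ∧
      ∀ M, 2 ≤ M → M ≤ i → Large M (X i) → Large M V) := by
    intro i
    by_cases hi : k ≤ i
    · set N := Nat.findGreatest (fun N => Large N (X i)) i with hN
      rcases Nat.lt_or_ge N 2 with hN2 | hN2
      · obtain ⟨v, hv⟩ := h.1 i hi
        refine ⟨{v}, fun _ => ⟨Finset.singleton_subset_iff.2 hv, ⟨0, v, by omega, rfl⟩, ?_⟩⟩
        intro M h2 h3 h4
        have := Nat.le_findGreatest (P := fun N => Large N (X i)) h3 h4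
        omega
      · have h2 : Large N (X i) := by
          have h0 : Large 0 (X i) := by
            obtain ⟨v, hv⟩ := h.1 i hi
            exact ⟨v, hv⟩
          exact Nat.findGreatest_spec (P := fun N => Large N (X i)) (Nat.zero_le i) h0
        obtain ⟨e, he⟩ := h2
        obtain ⟨W, hW, hex⟩ := he.exists_ex
        refine ⟨W, fun _ => ⟨hW, ⟨N, e, by omega, hex⟩, ?_⟩⟩
        intro M h3 h4 h5
        exact (show Large N W from ⟨e, hex.lg⟩).anti
          (Nat.le_findGreatest (P := fun N => Large N (X i)) h4 h5)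
    · exact ⟨∅, fun h => (hi h).elim⟩
  choose X' hX' using h1
  refine ⟨X', fun i hi => (hX' i hi).1, ⟨fun i hi => ?_, fun M => ?_⟩, fun i hi => (hX' i hi).2.1⟩
  · obtain ⟨N, e, h2, h3⟩ := (hX' i hi).2.1
    rw [← Finset.card_pos, h3.card]
    rcases N with _ | N
    · simp
    · exact Nat.pow_pos (by omega)
  · have h2 := (h.2 (max M 2)).and_eventually (eventually_ge_atTop (max (max M 2) k))
    refine h2.mono ?_
    rintro i ⟨h3, h4⟩
    have h5 : k ≤ i := (le_max_right _ _).trans h4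
    exact ((hX' i h5).2.2 (max M 2) (le_max_right _ _) ((le_max_left _ _).trans h4) h3).anti
      (le_max_left _ _)

theorem isPath_shift {X : ℕ → Finset H} {k : ℕ} {u : List H} :
    IsPath X k u ↔ IsPath (fun i => X (k + i)) 0 u := by
  rw [isPath_iff_get, isPath_iff_get]
  simp only [Nat.zero_add]

/-- LEMMA W -/
theorem lemmaW {κ : Type*} [Finite κ] {k : ℕ} {X : ℕ → Finset H} (h : IsXX k X)
    (c : List H → κ) : ∃ X', LeX k X' X ∧ IsXX k X' ∧
      ∃ e, ∀ u, IsPath X' k u → 2 ≤ (X' (k + u.length)).card → c u = e := by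
  obtain ⟨X1, h1, h2, h3⟩ := exists_tidy h
  have hinf : ∀ M, ∃ᶠ i in atTop, ∃ N e0, M ≤ N ∧ Ex N N (X1 (k + i)) e0 := by
    intro M
    rw [frequently_atTop]
    intro a
    obtain ⟨b, hb, h8⟩ := (frequently_atTop.1 (h2.2 (max M 2))) (a + k)
    refine ⟨b - k, by omega, ?_⟩
    rw [show k + (b - k) = b by omega]
    obtain ⟨N, e, h9, h10⟩ := h3.exact (i := b) (by omega)
      ((le_max_right M 2).trans h8.le_card)
    refine ⟨N, e, ?_, h10⟩
    by_contra hlt
    have hMN : N < max M 2 := by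
      have := le_max_left M 2
      omega
    obtain ⟨e', he'⟩ := h8
    obtain ⟨W, hW, hex⟩ := he'.exists_ex
    have hc1 := Finset.card_le_card hW
    rw [hex.card, h10.card] at hc1
    have : N ^ N < (max M 2) ^ (max M 2) :=
      lt_of_lt_of_le (Nat.pow_lt_pow_left hMN (by omega)) (Nat.pow_le_pow_right (by omega) hMN.le)
    omega
  obtain ⟨X2, e, h4, h5, h6, h7⟩ := lemW_zero (Y := fun i => X1 (k + i))
    (fun i => h2.1 _ (by omega)) hinf c
  refine ⟨fun i => X2 (i - k), fun i hi => ?_, ⟨fun i _ => h5 _, fun M => ?_⟩, e,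
    fun u hu hc => ?_⟩
  · have := h4 (i - k)
    simp only [show k + (i - k) = i by omega] at this
    exact this.trans (h1 i hi)
  · rw [frequently_atTop]
    intro a
    obtain ⟨b, hb, h8⟩ := (frequently_atTop.1 (h6 M)) a
    refine ⟨b + k, by omega, ?_⟩
    show Large M (X2 (b + k - k))
    rw [Nat.add_sub_cancel]
    exact h8
  · have hc' : 2 ≤ (X2 (k + u.length - k)).card := hc
    rw [Nat.add_sub_cancel_left] at hc'
    refine h7 u ?_ hc'
    rw [isPath_shift] at hu
    refine (IsPath.congr fun i _ _ => ?_).2 hu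
    show X2 i = X2 (k + i - k)
    rw [Nat.add_sub_cancel_left]

/-- LEMMA S -/
theorem lemmaS {κ : Type} [Finite κ] {k : ℕ} {X : ℕ → Finset H} (h : IsXX k X) (j : ℕ)
    (c : List H → H → H → κ) : ∃ X', LeX k X' X ∧ IsXX k X' ∧
      ∃ e, ∀ u, IsPath X' k u → ∀ v ∈ X' (k + u.length), ∀ v' ∈ X' (k + u.length),
        Pr j v v' → c u v v' = e := by
  classical
  have hpt : ∀ l, ∃ v, k ≤ l → v ∈ X l := by
    intro l
    by_cases hl : k ≤ l
    · obtain ⟨v, hv⟩ := h.1 l hl
      exact ⟨v, fun _ => hv⟩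
    · exact ⟨0, fun h => (hl h).elim⟩
  choose pt hpt using hpt
  set P : ℕ → ℕ → (ℕ → Finset H) → Prop := fun n i Z =>
    k ≤ i ∧ (∀ l < i, k ≤ l → Z l ⊆ X l ∧ (Z l).Nonempty) ∧
      (∀ u, IsPath Z k u → k + u.length < i → ∃ d, ∀ v ∈ Z (k + u.length),
        ∀ v' ∈ Z (k + u.length), Pr j v v' → c u v v' = d) ∧
      n ≤ i ∧ (n ≠ 0 → ∃ l < i, n ≤ l + 1 ∧ Large n (Z l)) with hP
  have hcongr : ∀ n i Z Z', (∀ l < i, Z' l = Z l) → P n i Z → P n i Z' := by
    rintro n i Z Z' hZ ⟨h0, h1, h2, h3, h4⟩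
    refine ⟨h0, fun l hl hkl => ?_, fun u hu hl => ?_, h3, fun hn => ?_⟩
    · rw [hZ l hl]
      exact h1 l hl hkl
    · rw [hZ _ hl]
      exact h2 u ((IsPath.congr fun l _ hl' => hZ l (by omega)).1 hu) hl
    · obtain ⟨l, h5, h6, h7⟩ := h4 hn
      exact ⟨l, h5, h6, by rw [hZ l h5]; exact h7⟩
  have h0 : P 0 k X :=
    ⟨le_rfl, fun l hl hkl => by omega, fun u _ hl => by omega, Nat.zero_le _,
      fun h => (h rfl).elim⟩
  have hstep : ∀ n i Z, P n i Z → ∃ i' > i, ∃ Z', (∀ l < i, Z' l = Z l) ∧ P (n + 1) i' Z' := by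
    rintro n i Z ⟨hki, h1, h2, h3, _⟩
    obtain ⟨N, hN⟩ := pairs ({u // u ∈ pathsF Z (i - k) k} → κ) j (n + 1)
    obtain ⟨m, him, hm⟩ := (frequently_atTop.1 (h.2 N)) i
    set τ : List H := (List.range' i (m - i)).map pt with hτ
    have hτl : τ.length = m - i := by rw [hτ, List.length_map, List.length_range']
    have hτg : ∀ (l : ℕ) (hl : l < τ.length), τ[l] = pt (i + l) := by
      intro l hl
      simp [hτ]
    obtain ⟨W, hW, hWl, g, hg⟩ := hN (X m) (fun v v' u => c (u.1 ++ τ) v v') hm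
    set Z' : ℕ → Finset H := fun l => if l < i then Z l else if l < m then {pt l} else W with hZ'
    have hZlt : ∀ l < i, Z' l = Z l := fun l hl => if_pos hl
    have hZmid : ∀ l, i ≤ l → l < m → Z' l = {pt l} := by
      intro l h5 h6
      simp only [hZ']
      rw [if_neg (by omega), if_pos h6]
    have hZm : Z' m = W := by
      simp only [hZ']
      rw [if_neg (by omega), if_neg (by omega)]
    have hpm : ∀ u, IsPath Z' k u → k + u.length = m →
        ∃ u' ∈ pathsF Z (i - k) k, u = u' ++ τ := by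
      intro u hu hul
      have hu' : IsPath Z' k (u.take (i - k) ++ u.drop (i - k)) := by
        rwa [List.take_append_drop]
      rw [isPath_append] at hu'
      have hlen : (u.take (i - k)).length = i - k := by rw [List.length_take]; omega
      refine ⟨u.take (i - k), ?_, ?_⟩
      · rw [mem_pathsF]
        exact ⟨hlen, (IsPath.congr fun l _ hl => hZlt l (by omega)).1 hu'.1⟩
      · have h5 : u.drop (i - k) = τ := by
          apply List.ext_getElem
          · rw [List.length_drop, hτl]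
            omega
          · intro l h6 h7
            have h8 := (isPath_iff_get.1 hu'.2) l h6
            rw [hlen, show k + (i - k) + l = i + l by omega,
              hZmid (i + l) (by omega) (by omega), Finset.mem_singleton] at h8
            rw [h8, hτg]
        conv_lhs => rw [← List.take_append_drop (i - k) u, h5]
    refine ⟨m + 1, by omega, Z', hZlt, by omega, fun l hl hkl => ?_, fun u hu hul => ?_, by omega,
      fun _ => ⟨m, by omega, by omega, by rw [hZm]; exact hWl⟩⟩
    · rcases Nat.lt_or_ge l i with h5 | h5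
      · rw [hZlt l h5]
        exact h1 l h5 hkl
      · rcases Nat.lt_or_ge l m with h6 | h6
        · rw [hZmid l h5 h6]
          exact ⟨Finset.singleton_subset_iff.2 (hpt l hkl), Finset.singleton_nonempty _⟩
        · have : l = m := by omega
          rw [this, hZm]
          exact ⟨hW, hWl.nonempty⟩
    · rcases Nat.lt_or_ge (k + u.length) i with h5 | h5
      · rw [hZlt _ h5]
        exact h2 u ((IsPath.congr fun l _ hl => hZlt l (by omega)).1 hu) h5
      · rcases Nat.lt_or_ge (k + u.length) m with h6 | h6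
        · rw [hZmid _ h5 h6]
          refine ⟨c u (pt (k + u.length)) (pt (k + u.length)), fun v hv v' hv' _ => ?_⟩
          rw [Finset.mem_singleton.1 hv, Finset.mem_singleton.1 hv']
        · have h7 : k + u.length = m := by omega
          obtain ⟨u', h8, h9⟩ := hpm u hu h7
          rw [h7, hZm]
          refine ⟨g ⟨u', h8⟩, fun v hv v' hv' hp => ?_⟩
          rw [← hg v hv v' hv' hp, h9]
  obtain ⟨X1, L, hL1, _, hL3⟩ := exists_limit P hcongr k _ h0 hstep
  have hLn : ∀ n, n ≤ L n := fun n => hL1.id_le n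
  have hX1 : IsXX k X1 := by
    refine ⟨fun i hi => ((hL3 (i + 1)).2.1 i (by have := hLn (i + 1); omega) hi).2, fun M => ?_⟩
    rw [frequently_atTop]
    intro a
    obtain ⟨l, _, h6, h7⟩ := (hL3 (max M (a + 1))).2.2.2.2 (by
      have := le_max_right M (a + 1)
      omega)
    refine ⟨l, ?_, h7.anti (le_max_left _ _)⟩
    have := le_max_right M (a + 1)
    omega
  have hle1 : LeX k X1 X := fun i hi => ((hL3 (i + 1)).2.1 i
    (by have := hLn (i + 1); omega) hi).1
  have hd : ∀ u, ∃ d, IsPath X1 k u → ∀ v ∈ X1 (k + u.length),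
      ∀ v' ∈ X1 (k + u.length), Pr j v v' → c u v v' = d := by
    intro u
    by_cases hu : IsPath X1 k u
    · obtain ⟨d, hd⟩ := (hL3 (k + u.length + 1)).2.2.1 u hu (by
        have := hLn (k + u.length + 1)
        omega)
      exact ⟨d, fun _ => hd⟩
    · exact ⟨c u 0 0, fun h => (hu h).elim⟩
  choose d hd using hd
  obtain ⟨X2, h4, h5, e, h6⟩ := lemmaW hX1 d
  refine ⟨X2, h4.trans hle1, h5, e, fun u hu v hv v' hv' hp => ?_⟩
  rw [hd u (h4.isPath hu) v (h4 _ (by omega) hv) v' (h4 _ (by omega) hv') hp]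
  refine h6 u hu ?_
  have hne : v ≠ v' := by
    intro h7
    have := hp.2
    rw [h7] at this
    exact lt_irrefl _ this
  exact Finset.one_lt_card.2 ⟨v, hv, v', hv', hne⟩

end Pool.Agent.Helper98.T
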