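import Pool.Agent.Helper98.T.Plim

/-!
Lemma W: a weak form of the theorem of DiPrisco, Llopis and Todorcevic.
-/

set_option autoImplicit false

open Filter Topology

namespace Pool.Agent.Helper98.T

variable {κ : Type*} {Y : ℕ → Finset H} {VV : Ultrafilter ℕ} {c : List H → κ} {e : κ}

/-- (d) -/
theorem exists_tree (hY : ∀ i, (Y i).Nonempty) (hVV : (VV : Filter ℕ) ≤ atTop)
    (U : Finset (List H)) (i : ℕ) {N M : ℕ} {e0 : H} (hex : Ex N N (Y i) e0)
    {p : ℝ} (hp : 0 < p) (hpU : p ≤ plim Y VV c e U i)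
    (hM : (2 : ℝ) ^ M * M ≤ p / 4 * N) (hMN : M ≤ N) :
    ∃ V e', V ⊆ Y i ∧ Ex M M V e' ∧ 0 < plim Y VV c e (catF U V) (i + 1) := by
  classical
  set TT : Finset (Finset H) := (Y i).powerset.filter fun V => ∃ e', Ex M M V e' with hTT
  have hpt : ∀ τ, avg (Y i) (fun w => ind (Good c e U (w :: τ))) ≤
      p / 4 + ∑ V ∈ TT, ind (Good c e (catF U V) τ) := by
    intro τ
    have hs : 0 ≤ ∑ V ∈ TT, ind (Good c e (catF U V) τ) :=
      Finset.sum_nonneg fun V _ => ind_nonneg _
    by_cases h1 : avg (Y i) (fun w => ind (Good c e U (w :: τ))) ≤ p / 4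
    · linarith
    · have h1 := not_le.1 h1
      set D := (Y i).filter fun w => Good c e U (w :: τ) with hD
      have h2 : avg (Y i) (fun w => ind (Good c e U (w :: τ))) =
          ((Y i).card : ℝ)⁻¹ * D.card := by
        rw [avg]
        congr 1
        have : ∀ w, ind (Good c e U (w :: τ)) = if Good c e U (w :: τ) then 1 else 0 := by
          intro w
          by_cases h : Good c e U (w :: τ)
          · rw [if_pos h, ind_true h]
          · rw [if_neg h, ind_false h]
        simp only [this]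
        rw [← Finset.sum_filter, Finset.sum_const, nsmul_eq_mul, mul_one]
      have hcard : (0 : ℝ) < (Y i).card := by exact_mod_cast Finset.card_pos.2 (hY i)
      have hin : Y i ∩ D = D := Finset.inter_eq_right.2 (Finset.filter_subset _ _)
      have h3 : p / 4 * (Y i).card ≤ ((Y i ∩ D).card : ℝ) := by
        rw [hin]
        rw [h2] at h1
        have := mul_le_mul_of_nonneg_right h1.le hcard.le
        calc p / 4 * (Y i).card ≤ ((Y i).card : ℝ)⁻¹ * D.card * (Y i).card := this
          _ = D.card := by field_simp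
      obtain ⟨e', he'⟩ := hex.large_of_density (by positivity) h3 hM hMN
      rw [hin] at he'
      obtain ⟨V, hV, hVe⟩ := he'.exists_ex
      have hmem : V ∈ TT := Finset.mem_filter.2
        ⟨Finset.mem_powerset.2 (hV.trans (Finset.filter_subset _ _)), e', hVe⟩
      have hgood : Good c e (catF U V) τ := by
        rw [good_catF]
        exact fun w hw => (Finset.mem_filter.1 (hV hw)).2
      have h4 : (1 : ℝ) ≤ ∑ V ∈ TT, ind (Good c e (catF U V) τ) := by
        rw [← ind_true hgood]
        exact Finset.single_le_sum (f := fun V => ind (Good c e (catF U V) τ))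
          (fun V _ => ind_nonneg _) hmem
      have h5 : avg (Y i) (fun w => ind (Good c e U (w :: τ))) ≤ 1 := by
        rw [← avg_const (hY i) 1]
        exact avg_le fun w _ => ind_le_one _
      linarith
  have hswap : ∀ j, i + 1 ≤ j → prob Y c e U i j ≤
      p / 4 + ∑ V ∈ TT, prob Y c e (catF U V) (i + 1) j := by
    intro j hj
    have h1 : j - i = (j - (i + 1)) + 1 := by omega
    have h2 : prob Y c e U i j =
        mean Y (j - (i + 1)) (i + 1) (fun τ => avg (Y i) fun w => ind (Good c e U (w :: τ))) := by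
      rw [prob, h1]
      simp only [mean, avg]
      rw [mean_mul_left, mean_sum _ _ _ _ hY]
    rw [h2]
    simp only [prob]
    rw [← mean_sum _ _ _ _ hY, ← mean_const hY (j - (i + 1)) (p / 4) (i + 1), ← mean_add]
    exact mean_le fun τ _ _ => hpt τ
  have hlim : plim Y VV c e U i ≤
      p / 4 + ∑ V ∈ TT, plim Y VV c e (catF U V) (i + 1) := by
    refine le_of_tendsto_of_tendsto (tendsto_plim hY U i)
      ((tendsto_finsetSum _ fun V _ => tendsto_plim hY (catF U V) (i + 1)).const_add (p / 4)) ?_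
    filter_upwards [hVV (eventually_ge_atTop (i + 1))] with j hj
    exact hswap j hj
  by_contra hcon
  push Not at hcon
  have h1 : ∑ V ∈ TT, plim Y VV c e (catF U V) (i + 1) ≤ 0 := by
    refine Finset.sum_nonpos fun V hV => ?_
    obtain ⟨h2, e', h3⟩ := Finset.mem_filter.1 hV
    exact hcon V e' (Finset.mem_powerset.1 h2) h3
  linarith

/-- one step of the construction -/
theorem exists_stage (hY : ∀ i, (Y i).Nonempty) (hVV : (VV : Filter ℕ) ≤ atTop)
    (hN : ∀ M, ∀ᶠ i in (VV : Filter ℕ), ∃ N e0, M ≤ N ∧ Ex N N (Y i) e0)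
    (U : Finset (List H)) (i M : ℕ) (hp : 0 < plim Y VV c e U i) :
    ∃ j τ V e', i ≤ j ∧ IsPath Y i τ ∧ τ.length = j - i ∧ Good c e U τ ∧ V ⊆ Y j ∧
      Ex M M V e' ∧ 0 < plim Y VV c e (catF (catR U τ) V) (j + 1) := by
  set p := plim Y VV c e U i ^ 2 / 2 with hpdef
  have hppos : 0 < p := by positivity
  obtain ⟨N0, hN0⟩ := exists_nat_gt ((2 : ℝ) ^ M * M / (p / 4))
  obtain ⟨j, ⟨τ, h1, h2, h3, h4⟩, ⟨N, e0, h5, h6⟩, h7⟩ :=
    ((exists_good hY hVV (c := c) (e := e) U i hp).and ((hN (max N0 M)).and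
      (hVV (eventually_ge_atTop i)))).exists
  have h8 : (2 : ℝ) ^ M * M ≤ p / 4 * N := by
    rw [div_lt_iff₀ (by positivity)] at hN0
    have h9 : (N0 : ℝ) ≤ N := by exact_mod_cast (le_max_left _ _).trans h5
    nlinarith
  obtain ⟨V, e', h9, h10, h11⟩ := exists_tree hY hVV (c := c) (e := e) (catR U τ) j h6 hppos
    h4 h8 ((le_max_right _ _).trans h5)
  exact ⟨j, τ, V, e', h7, h1, h2, h3, h9, h10, h11⟩

/-- limits of finite approximations -/
theorem exists_limit {α : Type*} (P : ℕ → ℕ → (ℕ → α) → Prop)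
    (hcongr : ∀ n i Z Z', (∀ l < i, Z' l = Z l) → P n i Z → P n i Z') (i0 : ℕ) (Z0 : ℕ → α)
    (h0 : P 0 i0 Z0) (hstep : ∀ n i Z, P n i Z → ∃ i' > i, ∃ Z', (∀ l < i, Z' l = Z l) ∧
      P (n + 1) i' Z') :
    ∃ (f : ℕ → α) (L : ℕ → ℕ), StrictMono L ∧ L 0 = i0 ∧ ∀ n, P n (L n) f := by
  choose! nx hnx Zx hZx using hstep
  let st : ℕ → ℕ × (ℕ → α) := fun n => Nat.rec (i0, Z0) (fun n s => (nx n s.1 s.2, Zx n s.1 s.2)) n
  have hst : ∀ n, P n (st n).1 (st n).2 := by
    intro n
    induction n with
    | zero => exact h0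
    | succ n ih => exact (hZx n _ _ ih).2
  have hlt : ∀ n, (st n).1 < (st (n + 1)).1 := fun n => hnx n _ _ (hst n)
  have hmono : StrictMono fun n => (st n).1 := strictMono_nat_of_lt_succ hlt
  have hagree : ∀ n m, n ≤ m → ∀ l < (st n).1, (st m).2 l = (st n).2 l := by
    intro n m hnm
    induction m, hnm using Nat.le_induction with
    | base => exact fun _ _ => rfl
    | succ m hm ih =>
      intro l hl
      rw [← ih l hl]
      exact (hZx m _ _ (hst m)).1 l (lt_of_lt_of_le hl (hmono.monotone hm))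
  refine ⟨fun l => (st (l + 1)).2 l, fun n => (st n).1, hmono, rfl, fun n => ?_⟩
  refine hcongr n _ _ _ (fun l hl => ?_) (hst n)
  rcases Nat.le_total (l + 1) n with h | h
  · refine (hagree (l + 1) n h l ?_).symm
    have := hmono.id_le (l + 1)
    simp only [id] at this
    omega
  · exact hagree n (l + 1) h l hl

/-- Lemma W for exact trees, starting at level `0` -/
theorem lemW_zero [Finite κ] (hY : ∀ i, (Y i).Nonempty)
    (hinf : ∀ M, ∃ᶠ i in atTop, ∃ N e0, M ≤ N ∧ Ex N N (Y i) e0) (c : List H → κ) :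
    ∃ (X : ℕ → Finset H) (e : κ), (∀ i, X i ⊆ Y i) ∧ (∀ i, (X i).Nonempty) ∧
      (∀ M, ∃ᶠ i in atTop, Large M (X i)) ∧
      ∀ u, IsPath X 0 u → 2 ≤ (X u.length).card → c u = e := by
  classical
  have := Fintype.ofFinite κ
  -- the ultrafilter
  have hne : NeBot (atTop ⊓ ⨅ M : ℕ, 𝓟 {i : ℕ | ∃ N e0, M ≤ N ∧ Ex N N (Y i) e0}) := by
    have hb : (⨅ M : ℕ, 𝓟 {i : ℕ | ∃ N e0, M ≤ N ∧ Ex N N (Y i) e0}).HasBasis (fun _ => True)
        (fun M => {i : ℕ | ∃ N e0, M ≤ N ∧ Ex N N (Y i) e0}) := by
      apply hasBasis_iInf_principal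
      intro M M'
      refine ⟨max M M', ?_, ?_⟩
      · rintro i ⟨N, e0, h1, h2⟩
        exact ⟨N, e0, (le_max_left _ _).trans h1, h2⟩
      · rintro i ⟨N, e0, h1, h2⟩
        exact ⟨N, e0, (le_max_right _ _).trans h1, h2⟩
    rw [(atTop_basis.inf hb).neBot_iff]
    rintro ⟨n, M⟩ _
    obtain ⟨i, h1, h2⟩ := (frequently_atTop.1 (hinf M)) n
    exact ⟨i, h1, h2⟩
  obtain ⟨VV, hVV1⟩ : ∃ VV : Ultrafilter ℕ, (VV : Filter ℕ) ≤
      atTop ⊓ ⨅ M : ℕ, 𝓟 {i : ℕ | ∃ N e0, M ≤ N ∧ Ex N N (Y i) e0} :=
    ⟨Ultrafilter.of _, Ultrafilter.of_le _⟩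
  have hVV : (VV : Filter ℕ) ≤ atTop := hVV1.trans inf_le_left
  have hN : ∀ M, ∀ᶠ i in (VV : Filter ℕ), ∃ N e0, M ≤ N ∧ Ex N N (Y i) e0 := by
    intro M
    exact (hVV1.trans (inf_le_right.trans (iInf_le _ M))) (mem_principal_self _)
  obtain ⟨e, he⟩ := exists_plim_pos (κ := κ) (VV := VV) (c := c) hY
  set P : ℕ → ℕ → (ℕ → Finset H) → Prop := fun n i Z =>
    (∀ l < i, Z l ⊆ Y l ∧ (Z l).Nonempty) ∧ 0 < plim Y VV c e (pathsF Z i 0) i ∧
      (∀ u, IsPath Z 0 u → u.length < i → 2 ≤ (Z u.length).card → c u = e) ∧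
      (n ≠ 0 → ∃ l < i, n ≤ l + 1 ∧ Large n (Z l)) with hP
  have hcongr : ∀ n i Z Z', (∀ l < i, Z' l = Z l) → P n i Z → P n i Z' := by
    rintro n i Z Z' h ⟨h1, h2, h3, h4⟩
    refine ⟨fun l hl => ?_, ?_, fun u hu hl hc => ?_, fun hn => ?_⟩
    · rw [h l hl]
      exact h1 l hl
    · rw [pathsF_congr (X := Z) (X' := Z') (fun l _ hl => h l (by omega))]
      exact h2
    · refine h3 u ((IsPath.congr fun l _ hl' => h l (by omega)).1 hu) hl ?_
      rw [← h _ hl]
      exact hc
    · obtain ⟨l, h5, h6, h7⟩ := h4 hn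
      exact ⟨l, h5, h6, by rw [h l h5]; exact h7⟩
  have h0 : P 0 0 (fun _ => {0}) := by
    refine ⟨fun l hl => (Nat.not_lt_zero l hl).elim, ?_, fun u _ hl => (Nat.not_lt_zero _ hl).elim,
      fun h => (h rfl).elim⟩
    exact he
  have hstep : ∀ n i Z, P n i Z → ∃ i' > i, ∃ Z', (∀ l < i, Z' l = Z l) ∧ P (n + 1) i' Z' := by
    rintro n i Z ⟨h1, h2, h3, h4⟩
    obtain ⟨j, τ, V, e', hij, hτ1, hτ2, hg, hV, hVe, hpos⟩ :=
      exists_stage hY hVV hN (pathsF Z i 0) i (n + 2) h2
    set Z' : ℕ → Finset H := fun l => if l < i then Z l else if l < j then {τ.getD (l - i) 0}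
      else V with hZ'
    have hZlt : ∀ l < i, Z' l = Z l := fun l hl => if_pos hl
    have hZmid : ∀ l, i ≤ l → l < j → Z' l = {τ.getD (l - i) 0} := by
      intro l h5 h6
      simp only [hZ']
      rw [if_neg (by omega), if_pos h6]
    have hZj : Z' j = V := by
      simp only [hZ']
      rw [if_neg (by omega), if_neg (by omega)]
    have hVne : V.Nonempty := hVe.nonempty (by omega)
    -- the paths of length j
    have hpj : ∀ u, IsPath Z' 0 u → u.length = j →
        ∃ u' ∈ pathsF Z i 0, u = u' ++ τ := by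
      intro u hu hul
      have hu' : IsPath Z' 0 (u.take i ++ u.drop i) := by rwa [List.take_append_drop]
      rw [isPath_append] at hu'
      have hlen : (u.take i).length = i := by rw [List.length_take]; omega
      refine ⟨u.take i, ?_, ?_⟩
      · rw [mem_pathsF]
        exact ⟨hlen, (IsPath.congr fun l _ hl => hZlt l (by omega)).1 hu'.1⟩
      · have h5 : u.drop i = τ := by
          apply List.ext_getElem
          · rw [List.length_drop, hul, hτ2]
          · intro l h6 h7
            have h8 := (isPath_iff_get.1 hu'.2) l h6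
            rw [hlen, Nat.zero_add, hZmid (i + l) (by omega) (by omega),
              Finset.mem_singleton, Nat.add_sub_cancel_left] at h8
            rw [h8, List.getD_eq_getElem _ _ h7]
        conv_lhs => rw [← List.take_append_drop i u, h5]
    have hpaths : pathsF Z' (j + 1) 0 = catF (catR (pathsF Z i 0) τ) V := by
      ext u
      simp only [catF, catR, Finset.mem_biUnion, Finset.mem_image, mem_pathsF]
      constructor
      · rintro ⟨hul, hu⟩
        have hu' : IsPath Z' 0 (u.take j ++ u.drop j) := by rwa [List.take_append_drop]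
        rw [isPath_append] at hu'
        have hlen : (u.take j).length = j := by rw [List.length_take]; omega
        obtain ⟨u', h5, h6⟩ := hpj _ hu'.1 hlen
        have hlt : j < u.length := by omega
        have h7 : u.drop j = [u[j]] := by
          rw [List.drop_eq_getElem_cons hlt, List.drop_eq_nil_of_le (by omega)]
        refine ⟨u[j], ?_, u' ++ τ, ⟨u', mem_pathsF.1 h5, rfl⟩, ?_⟩
        · have h8 := hu'.2
          rw [h7, hlen, Nat.zero_add] at h8
          have h9 := h8.1
          rwa [hZj] at h9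
        · rw [← h6, ← h7, List.take_append_drop]
      · rintro ⟨w, hw, _, ⟨u', ⟨h5, h6⟩, rfl⟩, rfl⟩
        refine ⟨?_, ?_⟩
        · rw [List.length_append, List.length_append, h5, hτ2, List.length_singleton]
          omega
        · rw [isPath_append, isPath_append]
          refine ⟨⟨(IsPath.congr fun l _ hl => hZlt l (by omega)).2 h6, ?_⟩, ?_⟩
          · rw [isPath_iff_get]
            intro l hl
            rw [h5, Nat.zero_add, hZmid (i + l) (by omega) (by omega), Nat.add_sub_cancel_left,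
              List.getD_eq_getElem _ _ hl]
            exact Finset.mem_singleton_self _
          · rw [List.length_append, h5, hτ2, show 0 + (i + (j - i)) = j by omega]
            refine ⟨?_, trivial⟩
            rw [hZj]
            exact hw
    refine ⟨j + 1, by omega, Z', hZlt, fun l hl => ?_, ?_, fun u hu hul hc => ?_, fun _ => ?_⟩
    · rcases Nat.lt_or_ge l i with h5 | h5
      · rw [hZlt l h5]
        exact h1 l h5
      · rcases Nat.lt_or_ge l j with h6 | h6
        · rw [hZmid l h5 h6]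
          refine ⟨?_, Finset.singleton_nonempty _⟩
          rw [Finset.singleton_subset_iff]
          have hl' : l - i < τ.length := by omega
          have := (isPath_iff_get.1 hτ1) (l - i) hl'
          rw [List.getD_eq_getElem _ _ hl']
          rwa [show i + (l - i) = l by omega] at this
        · have : l = j := by omega
          rw [this, hZj]
          exact ⟨hV, hVne⟩
    · rw [hpaths]
      exact hpos
    · rcases Nat.lt_or_ge u.length i with h5 | h5
      · refine h3 u ((IsPath.congr fun l _ hl => hZlt l (by omega)).1 hu) h5 ?_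
        rw [← hZlt _ h5]
        exact hc
      · rcases Nat.lt_or_ge u.length j with h6 | h6
        · rw [hZmid _ h5 h6, Finset.card_singleton] at hc
          omega
        · have h7 : u.length = j := by omega
          obtain ⟨u', h8, h9⟩ := hpj u hu h7
          rw [h9]
          exact hg u' h8
    · rcases Nat.lt_or_ge n (j + 1) with h5 | h5
      · refine ⟨j, by omega, by omega, ?_⟩
        rw [hZj]
        exact (show Large (n + 2) V from ⟨e', hVe.lg⟩).anti (by omega)
      · -- impossible for stages, but harmless: `n ≤ i`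
        exfalso
        have : n ≤ i := by
          rcases Nat.eq_zero_or_pos n with h6 | h6
          · omega
          · obtain ⟨l, h7, h8, _⟩ := h4 (by omega)
            omega
        omega
  obtain ⟨X, L, hL1, _, hL3⟩ := exists_limit P hcongr 0 _ h0 hstep
  have hLn : ∀ n, n ≤ L n := fun n => hL1.id_le n
  refine ⟨X, e, fun i => ?_, fun i => ?_, fun M => ?_, fun u hu hc => ?_⟩
  · exact ((hL3 (i + 1)).1 i (by have := hLn (i + 1); omega)).1
  · exact ((hL3 (i + 1)).1 i (by have := hLn (i + 1); omega)).2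
  · rw [frequently_atTop]
    intro a
    obtain ⟨l, _, h6, h7⟩ := (hL3 (max M (a + 1))).2.2.2 (by
      have := le_max_right M (a + 1)
      omega)
    refine ⟨l, ?_, h7.anti (le_max_left _ _)⟩
    have := le_max_right M (a + 1)
    omega
  · exact (hL3 (u.length + 1)).2.2.1 u hu (by have := hLn (u.length + 1); omega) hc

end Pool.Agent.Helper98.T
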