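import Pool.Agent.Helper98.T.Trees

/-!
Paths through a sequence of finite sets and averages over them.
-/

set_option autoImplicit false

open Filter Topology

namespace Pool.Agent.Helper98.T

/-- finite paths through `X` starting at level `k` -/
def IsPath (X : ℕ → Finset H) : ℕ → List H → Prop
  | _, [] => True
  | k, v :: u => v ∈ X k ∧ IsPath X (k + 1) u

theorem isPath_nil (X : ℕ → Finset H) (k : ℕ) : IsPath X k [] := trivial

theorem isPath_cons {X : ℕ → Finset H} {k : ℕ} {v : H} {u : List H} :
    IsPath X k (v :: u) ↔ v ∈ X k ∧ IsPath X (k + 1) u := Iff.rfl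

theorem isPath_append {X : ℕ → Finset H} {u u' : List H} : ∀ {k : ℕ},
    IsPath X k (u ++ u') ↔ IsPath X k u ∧ IsPath X (k + u.length) u' := by
  induction u with
  | nil => exact fun {k} => ⟨fun h => ⟨trivial, h⟩, fun h => h.2⟩
  | cons v u ih =>
    intro k
    rw [List.cons_append, isPath_cons, isPath_cons, ih, and_assoc, List.length_cons,
      Nat.add_right_comm, Nat.add_assoc]

theorem IsPath.congr {X X' : ℕ → Finset H} {u : List H} : ∀ {k : ℕ},
    (∀ i, k ≤ i → i < k + u.length → X' i = X i) → (IsPath X' k u ↔ IsPath X k u) := by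
  induction u with
  | nil => exact fun _ => Iff.rfl
  | cons v u ih =>
    intro k h
    rw [isPath_cons, isPath_cons, h k le_rfl (by simp), ih (fun i h1 h2 => h i (by omega)
      (by rw [List.length_cons]; omega))]

theorem IsPath.mono {X X' : ℕ → Finset H} {u : List H} : ∀ {k : ℕ},
    (∀ i, k ≤ i → i < k + u.length → X' i ⊆ X i) → IsPath X' k u → IsPath X k u := by
  induction u with
  | nil => exact fun _ _ => trivial
  | cons v u ih =>
    intro k h h1
    exact ⟨h k le_rfl (by simp) h1.1, ih (fun i h1 h2 => h i (by omega)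
      (by rw [List.length_cons]; omega)) h1.2⟩

theorem isPath_iff_get {X : ℕ → Finset H} {u : List H} : ∀ {k : ℕ},
    IsPath X k u ↔ ∀ (i : ℕ) (h : i < u.length), u[i] ∈ X (k + i) := by
  induction u with
  | nil => exact fun {k} => ⟨fun _ i h => (Nat.not_lt_zero i h).elim, fun _ => trivial⟩
  | cons v u ih =>
    intro k
    rw [isPath_cons, ih]
    constructor
    · rintro ⟨h1, h2⟩ i h
      rcases i with _ | i
      · exact h1
      · have := h2 i (by simpa using h)
        rw [show k + (i + 1) = k + 1 + i by omega]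
        exact this
    · intro h
      refine ⟨h 0 (by simp), fun i hi => ?_⟩
      have := h (i + 1) (by simpa using hi)
      rw [show k + 1 + i = k + (i + 1) by omega]
      exact this

/-- the finite set of paths of length `n` starting at level `k` -/
def pathsF (X : ℕ → Finset H) : ℕ → ℕ → Finset (List H)
  | 0, _ => {[]}
  | n + 1, k => (X k).biUnion fun v => (pathsF X n (k + 1)).image (List.cons v)

theorem mem_pathsF {X : ℕ → Finset H} {n : ℕ} : ∀ {k : ℕ} {u : List H},
    u ∈ pathsF X n k ↔ u.length = n ∧ IsPath X k u := by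
  induction n with
  | zero =>
    intro k u
    simp only [pathsF, Finset.mem_singleton]
    constructor
    · rintro rfl
      exact ⟨rfl, trivial⟩
    · rintro ⟨h, _⟩
      exact List.length_eq_zero_iff.1 h
  | succ n ih =>
    intro k u
    simp only [pathsF, Finset.mem_biUnion, Finset.mem_image]
    constructor
    · rintro ⟨v, hv, u', hu', rfl⟩
      obtain ⟨h1, h2⟩ := ih.1 hu'
      exact ⟨by rw [List.length_cons, h1], hv, h2⟩
    · rintro ⟨h1, h2⟩
      rcases u with _ | ⟨v, u⟩
      · simp at h1
      · exact ⟨v, h2.1, u, ih.2 ⟨by simpa using h1, h2.2⟩, rfl⟩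

theorem pathsF_congr {X X' : ℕ → Finset H} {n k : ℕ} (h : ∀ i, k ≤ i → i < k + n → X' i = X i) :
    pathsF X' n k = pathsF X n k := by
  ext u
  rw [mem_pathsF, mem_pathsF]
  refine and_congr_right fun hu => IsPath.congr ?_
  rw [hu]
  exact h

theorem pathsF_nonempty {X : ℕ → Finset H} {n : ℕ} : ∀ {k : ℕ},
    (∀ i, k ≤ i → i < k + n → (X i).Nonempty) → (pathsF X n k).Nonempty := by
  induction n with
  | zero => exact fun _ => ⟨[], Finset.mem_singleton_self _⟩
  | succ n ih =>
    intro k h
    obtain ⟨v, hv⟩ := h k le_rfl (by omega)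
    obtain ⟨u, hu⟩ := ih (k := k + 1) (fun i h1 h2 => h i (by omega) (by omega))
    exact ⟨v :: u, Finset.mem_biUnion.2 ⟨v, hv, Finset.mem_image.2 ⟨u, hu, rfl⟩⟩⟩

/-! ### averages -/

/-- average of `g` over `S` -/
noncomputable def avg (S : Finset H) (g : H → ℝ) : ℝ := (S.card : ℝ)⁻¹ * ∑ w ∈ S, g w

theorem avg_congr {S : Finset H} {g g' : H → ℝ} (h : ∀ w ∈ S, g w = g' w) :
    avg S g = avg S g' := by
  rw [avg, avg, Finset.sum_congr rfl h]

theorem avg_le {S : Finset H} {g g' : H → ℝ} (h : ∀ w ∈ S, g w ≤ g' w) :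
    avg S g ≤ avg S g' :=
  mul_le_mul_of_nonneg_left (Finset.sum_le_sum h) (by positivity)

theorem avg_const {S : Finset H} (hS : S.Nonempty) (a : ℝ) : avg S (fun _ => a) = a := by
  rw [avg, Finset.sum_const, nsmul_eq_mul, ← mul_assoc, inv_mul_cancel₀, one_mul]
  exact_mod_cast (Finset.card_pos.2 hS).ne'

theorem avg_add (S : Finset H) (g g' : H → ℝ) :
    avg S (fun w => g w + g' w) = avg S g + avg S g' := by
  rw [avg, avg, avg, Finset.sum_add_distrib, mul_add]

theorem avg_mul_left (S : Finset H) (a : ℝ) (g : H → ℝ) :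
    avg S (fun w => a * g w) = a * avg S g := by
  rw [avg, avg, ← Finset.mul_sum]
  ring

theorem avg_tendsto {ι : Type*} {l : Filter ι} {S : Finset H} {G : ι → H → ℝ} {g : H → ℝ}
    (h : ∀ w ∈ S, Tendsto (fun j => G j w) l (𝓝 (g w))) :
    Tendsto (fun j => avg S (G j)) l (𝓝 (avg S g)) :=
  (tendsto_finsetSum _ h).const_mul _

/-- average of `F` over the paths of length `n` starting at level `i` -/
noncomputable def mean (X : ℕ → Finset H) : ℕ → ℕ → (List H → ℝ) → ℝ
  | 0, _, F => F []
  | n + 1, i, F => avg (X i) fun w => mean X n (i + 1) fun τ => F (w :: τ)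

variable {X : ℕ → Finset H}

theorem mean_le {n : ℕ} : ∀ {i : ℕ} {F G : List H → ℝ},
    (∀ τ, IsPath X i τ → τ.length = n → F τ ≤ G τ) → mean X n i F ≤ mean X n i G := by
  induction n with
  | zero => exact fun h => h [] trivial rfl
  | succ n ih =>
    intro i F G h
    refine avg_le fun w hw => ih fun τ h1 h2 => h _ ⟨hw, h1⟩ ?_
    rw [List.length_cons, h2]

theorem mean_congr {n i : ℕ} {F G : List H → ℝ}
    (h : ∀ τ, IsPath X i τ → τ.length = n → F τ = G τ) : mean X n i F = mean X n i G :=
  le_antisymm (mean_le fun τ h1 h2 => (h τ h1 h2).le) (mean_le fun τ h1 h2 => (h τ h1 h2).ge)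

theorem mean_const (hX : ∀ i, (X i).Nonempty) (n : ℕ) (a : ℝ) : ∀ (i : ℕ),
    mean X n i (fun _ => a) = a := by
  induction n with
  | zero => exact fun _ => rfl
  | succ n ih =>
    intro i
    simp only [mean]
    rw [avg_congr fun w _ => ih (i + 1), avg_const (hX i)]

theorem mean_add (n : ℕ) : ∀ (i : ℕ) (F G : List H → ℝ),
    mean X n i (fun τ => F τ + G τ) = mean X n i F + mean X n i G := by
  induction n with
  | zero => exact fun _ _ _ => rfl
  | succ n ih =>
    intro i F G
    simp only [mean]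
    rw [avg_congr fun w _ => ih (i + 1) _ _, avg_add]

theorem mean_mul_left (n : ℕ) (a : ℝ) : ∀ (i : ℕ) (F : List H → ℝ),
    mean X n i (fun τ => a * F τ) = a * mean X n i F := by
  induction n with
  | zero => exact fun _ _ => rfl
  | succ n ih =>
    intro i F
    simp only [mean]
    rw [avg_congr fun w _ => ih (i + 1) _, avg_mul_left]

theorem mean_sum {ι : Type*} (S : Finset ι) (n i : ℕ) (F : ι → List H → ℝ)
    (hX : ∀ i, (X i).Nonempty) :
    mean X n i (fun τ => ∑ s ∈ S, F s τ) = ∑ s ∈ S, mean X n i (F s) := by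
  classical
  induction S using Finset.induction_on with
  | empty =>
    simp only [Finset.sum_empty]
    exact mean_const hX n 0 i
  | insert a S ha ih =>
    simp only [Finset.sum_insert ha]
    rw [mean_add, ih]

theorem mean_tower (m : ℕ) (n : ℕ) : ∀ (i : ℕ) (F : List H → ℝ),
    mean X (n + m) i F = mean X n i (fun σ => mean X m (i + n) (fun τ => F (σ ++ τ))) := by
  induction n with
  | zero =>
    intro i F
    rw [Nat.zero_add]
    rfl
  | succ n ih =>
    intro i F
    rw [Nat.add_right_comm]
    simp only [mean]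
    refine avg_congr fun w _ => ?_
    rw [ih]
    rw [show i + 1 + n = i + (n + 1) by omega]
    rfl

theorem mean_take (hX : ∀ i, (X i).Nonempty) {n n' : ℕ} (hn : n ≤ n') (i : ℕ)
    (F : List H → ℝ) : mean X n' i (fun τ => F (τ.take n)) = mean X n i F := by
  obtain ⟨m, rfl⟩ := Nat.exists_eq_add_of_le hn
  rw [mean_tower]
  refine mean_congr fun σ _ hσ => ?_
  rw [← mean_const (X := X) hX m (F σ) (i + n)]
  refine mean_congr fun τ _ _ => ?_
  rw [List.take_left' hσ]

theorem mean_tendsto {ι : Type*} {l : Filter ι} {n : ℕ} : ∀ {i : ℕ} {G : ι → List H → ℝ}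
    {g : List H → ℝ}, (∀ σ, IsPath X i σ → σ.length = n → Tendsto (fun j => G j σ) l (𝓝 (g σ))) →
    Tendsto (fun j => mean X n i (G j)) l (𝓝 (mean X n i g)) := by
  induction n with
  | zero => exact fun h => h [] trivial rfl
  | succ n ih =>
    intro i G g h
    refine avg_tendsto fun w hw => ih fun σ h1 h2 => h _ ⟨hw, h1⟩ ?_
    rw [List.length_cons, h2]

/-- indicator -/
noncomputable def ind (p : Prop) : ℝ := @ite _ p (Classical.dec p) 1 0

theorem ind_true {p : Prop} (h : p) : ind p = 1 := by
  rw [ind, if_pos h]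

theorem ind_false {p : Prop} (h : ¬ p) : ind p = 0 := by
  rw [ind, if_neg h]

theorem ind_nonneg (p : Prop) : 0 ≤ ind p := by
  by_cases h : p
  · rw [ind_true h]
    norm_num
  · rw [ind_false h]

theorem ind_le_one (p : Prop) : ind p ≤ 1 := by
  by_cases h : p
  · rw [ind_true h]
  · rw [ind_false h]
    norm_num

theorem ind_congr {p q : Prop} (h : p ↔ q) : ind p = ind q := by
  rw [propext h]

end Pool.Agent.Helper98.T
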