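import Pool.Agent.Helper98.T.Mean

/-!
Limits of probabilities along an ultrafilter (steps (a)-(d) of Lemma W).
-/

set_option autoImplicit false

open Filter Topology

namespace Pool.Agent.Helper98.T

variable {κ : Type*}

/-- all paths `u ++ τ`, `u ∈ U`, have the colour `e` -/
def Good (c : List H → κ) (e : κ) (U : Finset (List H)) (τ : List H) : Prop :=
  ∀ u ∈ U, c (u ++ τ) = e

/-- `U τ` -/
def catR (U : Finset (List H)) (τ : List H) : Finset (List H) := U.image (· ++ τ)

/-- `U V` -/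
def catF (U : Finset (List H)) (V : Finset H) : Finset (List H) :=
  V.biUnion fun w => U.image (· ++ [w])

theorem good_catR {c : List H → κ} {e : κ} {U : Finset (List H)} {τ ρ : List H} :
    Good c e (catR U τ) ρ ↔ Good c e U (τ ++ ρ) := by
  simp only [Good, catR, Finset.forall_mem_image, List.append_assoc]

theorem good_catF {c : List H → κ} {e : κ} {U : Finset (List H)} {V : Finset H} {ρ : List H} :
    Good c e (catF U V) ρ ↔ ∀ w ∈ V, Good c e U (w :: ρ) := by
  simp only [Good, catF, Finset.mem_biUnion, Finset.mem_image]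
  constructor
  · intro h w hw u hu
    have := h (u ++ [w]) ⟨w, hw, u, hu, rfl⟩
    rwa [List.append_assoc, List.singleton_append] at this
  · rintro h _ ⟨w, hw, u, hu, rfl⟩
    have := h w hw u hu
    rwa [List.append_assoc, List.singleton_append]

/-- the probability that a random extension from level `i` to level `j` is good -/
noncomputable def prob (Y : ℕ → Finset H) (c : List H → κ) (e : κ) (U : Finset (List H))
    (i j : ℕ) : ℝ := mean Y (j - i) i fun τ => ind (Good c e U τ)

/-- its limit -/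
noncomputable def plim (Y : ℕ → Finset H) (VV : Ultrafilter ℕ) (c : List H → κ) (e : κ)
    (U : Finset (List H)) (i : ℕ) : ℝ := limUnder (VV : Filter ℕ) (prob Y c e U i)

variable {Y : ℕ → Finset H} {VV : Ultrafilter ℕ} {c : List H → κ} {e : κ}

theorem prob_nonneg (hY : ∀ i, (Y i).Nonempty) (U : Finset (List H)) (i j : ℕ) :
    0 ≤ prob Y c e U i j := by
  rw [prob, ← mean_const hY (j - i) 0 i]
  exact mean_le fun τ _ _ => ind_nonneg _

theorem prob_le_one (hY : ∀ i, (Y i).Nonempty) (U : Finset (List H)) (i j : ℕ) :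
    prob Y c e U i j ≤ 1 := by
  rw [prob, ← mean_const hY (j - i) 1 i]
  exact mean_le fun τ _ _ => ind_le_one _

theorem tendsto_plim (hY : ∀ i, (Y i).Nonempty) (U : Finset (List H)) (i : ℕ) :
    Tendsto (prob Y c e U i) VV (𝓝 (plim Y VV c e U i)) := by
  apply tendsto_nhds_limUnder
  have h := (isCompact_Icc (a := (0 : ℝ)) (b := 1)).ultrafilter_le_nhds
    (VV.map (prob Y c e U i)) (by
      rw [le_principal_iff, Ultrafilter.mem_coe, Ultrafilter.mem_map]
      exact Filter.Eventually.of_forall fun j => ⟨prob_nonneg hY U i j, prob_le_one hY U i j⟩)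
  obtain ⟨x, _, hx⟩ := h
  exact ⟨x, hx⟩

theorem plim_nonneg (hY : ∀ i, (Y i).Nonempty) (U : Finset (List H)) (i : ℕ) :
    0 ≤ plim Y VV c e U i :=
  ge_of_tendsto' (tendsto_plim hY U i) fun j => prob_nonneg hY U i j

theorem plim_le_one (hY : ∀ i, (Y i).Nonempty) (U : Finset (List H)) (i : ℕ) :
    plim Y VV c e U i ≤ 1 :=
  le_of_tendsto' (tendsto_plim hY U i) fun j => prob_le_one hY U i j

/-- (a) -/
theorem exists_plim_pos [Fintype κ] [DecidableEq κ] (hY : ∀ i, (Y i).Nonempty)
    : ∃ e, 0 < plim Y VV c e {[]} 0 := by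
  by_contra hcon
  push Not at hcon
  have h1 : Tendsto (fun j => ∑ e : κ, prob Y c e {[]} 0 j) VV
      (𝓝 (∑ e : κ, plim Y VV c e {[]} 0)) := tendsto_finsetSum _ fun e _ => tendsto_plim hY _ _
  have h2 : ∀ j, ∑ e : κ, prob Y c e {[]} 0 j = 1 := by
    intro j
    simp only [prob]
    rw [← mean_sum _ _ _ _ hY, ← mean_const hY (j - 0) 1 0]
    refine mean_congr fun τ _ _ => ?_
    have : ∀ e : κ, ind (Good c e {[]} τ) = if c τ = e then 1 else 0 := by
      intro e
      by_cases h : c τ = e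
      · rw [if_pos h, ind_true]
        intro u hu
        rw [Finset.mem_singleton.1 hu]
        exact h
      · rw [if_neg h, ind_false]
        intro h'
        exact h (h' [] (Finset.mem_singleton_self _))
    simp only [this]
    simp
  simp only [h2] at h1
  have h3 := tendsto_nhds_unique h1 tendsto_const_nhds
  have h4 : ∑ e : κ, plim Y VV c e {[]} 0 ≤ 0 := Finset.sum_nonpos fun e _ => hcon e
  linarith

theorem prob_tower (U : Finset (List H)) (i n j : ℕ) (hj : i + n ≤ j) :
    prob Y c e U i j = mean Y n i fun σ => prob Y c e (catR U σ) (i + n) j := by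
  have h : j - i = n + (j - (i + n)) := by omega
  simp only [prob]
  rw [h, mean_tower]
  refine mean_congr fun σ _ _ => mean_congr fun τ _ _ => ?_
  rw [ind_congr good_catR]

/-- (b) -/
theorem plim_tower (hY : ∀ i, (Y i).Nonempty) (hVV : (VV : Filter ℕ) ≤ atTop)
    (U : Finset (List H)) (i n : ℕ) :
    plim Y VV c e U i = mean Y n i fun σ => plim Y VV c e (catR U σ) (i + n) := by
  have h1 : Tendsto (fun j => mean Y n i fun σ => prob Y c e (catR U σ) (i + n) j) VV
      (𝓝 (mean Y n i fun σ => plim Y VV c e (catR U σ) (i + n))) :=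
    mean_tendsto fun σ _ _ => tendsto_plim hY _ _
  refine tendsto_nhds_unique (tendsto_plim hY U i) (h1.congr' ?_)
  filter_upwards [hVV (eventually_ge_atTop (i + n))] with j hj
  exact (prob_tower U i n j hj).symm

/-- the probability of two events -/
noncomputable def prob2 (Y : ℕ → Finset H) (c : List H → κ) (e : κ) (U : Finset (List H))
    (i j j' : ℕ) : ℝ :=
  mean Y (j' - i) i fun τ => ind (Good c e U (τ.take (j - i))) * ind (Good c e U τ)

theorem prob2_tendsto (hY : ∀ i, (Y i).Nonempty) (hVV : (VV : Filter ℕ) ≤ atTop)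
    (U : Finset (List H)) (i j : ℕ) (hij : i ≤ j) :
    Tendsto (prob2 Y c e U i j) VV
      (𝓝 (mean Y (j - i) i fun σ => ind (Good c e U σ) * plim Y VV c e (catR U σ) j)) := by
  have h1 : Tendsto (fun j' => mean Y (j - i) i fun σ => ind (Good c e U σ) *
      prob Y c e (catR U σ) j j') VV
      (𝓝 (mean Y (j - i) i fun σ => ind (Good c e U σ) * plim Y VV c e (catR U σ) j)) :=
    mean_tendsto fun σ _ _ => (tendsto_plim hY _ _).const_mul _
  refine h1.congr' ?_
  filter_upwards [hVV (eventually_ge_atTop j)] with j' hj'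
  have h2 : j' - i = (j - i) + (j' - j) := by omega
  have h3 : i + (j - i) = j := by omega
  rw [prob2, h2, mean_tower]
  refine mean_congr fun σ _ hσ => ?_
  rw [prob, ← mean_mul_left, h3]
  refine mean_congr fun τ _ _ => ?_
  rw [List.take_left' hσ, ind_congr good_catR]

/-- second moment inequality -/
theorem second_moment (hY : ∀ i, (Y i).Nonempty) (U : Finset (List H)) (i : ℕ)
    (S : Finset ℕ) {b : ℝ} (hb0 : 0 ≤ b)
    (hb : ∀ j ∈ S, ∀ j' ∈ S, j < j' → prob2 Y c e U i j j' ≤ b) :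
    (∑ j ∈ S, prob Y c e U i j) ^ 2 ≤ S.card + S.card ^ 2 * b := by
  classical
  obtain ⟨J, hJ⟩ : ∃ J, ∀ j ∈ S, j ≤ J := ⟨S.sup id, fun j hj => Finset.le_sup (f := id) hj⟩
  set g : ℕ → List H → ℝ := fun j τ => ind (Good c e U (τ.take (j - i))) with hg
  set L : ℕ := J - i with hL
  have h1 : ∀ j ∈ S, mean Y L i (g j) = prob Y c e U i j := by
    intro j hj
    exact mean_take hY (by have := hJ j hj; omega) i (fun τ => ind (Good c e U τ))
  set T : List H → ℝ := fun τ => ∑ j ∈ S, g j τ with hT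
  set s : ℝ := ∑ j ∈ S, prob Y c e U i j with hs
  have h2 : mean Y L i T = s := by
    rw [hT, mean_sum _ _ _ _ hY]
    exact Finset.sum_congr rfl h1
  have h3 : (0 : ℝ) ≤ mean Y L i (fun τ => (T τ - s) ^ 2) := by
    rw [← mean_const hY L 0 i]
    exact mean_le fun τ _ _ => sq_nonneg _
  have h4 : mean Y L i (fun τ => (T τ - s) ^ 2) = mean Y L i (fun τ => T τ * T τ) - s ^ 2 := by
    have : ∀ τ, (T τ - s) ^ 2 = T τ * T τ + ((-2 * s) * T τ + s ^ 2) := by
      intro τ
      ring
    simp only [this]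
    rw [mean_add, mean_add, mean_mul_left, h2, mean_const hY]
    ring
  have h5 : mean Y L i (fun τ => T τ * T τ) =
      ∑ j ∈ S, ∑ j' ∈ S, mean Y L i (fun τ => g j τ * g j' τ) := by
    rw [← Finset.sum_congr rfl fun j _ => mean_sum S L i (fun j' τ => g j τ * g j' τ) hY,
      ← mean_sum S L i (fun j τ => ∑ j' ∈ S, g j τ * g j' τ) hY]
    refine mean_congr fun τ _ _ => ?_
    rw [hT]
    exact Finset.sum_mul_sum _ _ _ _
  have h6 : ∀ j ∈ S, ∀ j' ∈ S, j < j' → mean Y L i (fun τ => g j τ * g j' τ) ≤ b := by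
    intro j hj j' hj' hlt
    refine le_trans (le_of_eq ?_) (hb j hj j' hj' hlt)
    rw [prob2, ← mean_take hY (show j' - i ≤ L by have := hJ j' hj'; omega) i
      (fun τ => ind (Good c e U (τ.take (j - i))) * ind (Good c e U τ))]
    refine mean_congr fun τ _ _ => ?_
    rw [hg]
    simp only
    rw [List.take_take, min_eq_left (by omega)]
  have h7 : ∀ j ∈ S, mean Y L i (fun τ => g j τ * g j τ) ≤ 1 := by
    intro j _
    rw [← mean_const hY L 1 i]
    refine mean_le fun τ _ _ => ?_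
    exact mul_le_one₀ (ind_le_one _) (ind_nonneg _) (ind_le_one _)
  have h8 : ∑ j ∈ S, ∑ j' ∈ S, mean Y L i (fun τ => g j τ * g j' τ) ≤
      ∑ j ∈ S, ∑ j' ∈ S, ((if j = j' then 1 else 0) + b) := by
    refine Finset.sum_le_sum fun j hj => Finset.sum_le_sum fun j' hj' => ?_
    rcases lt_trichotomy j j' with h9 | h9 | h9
    · rw [if_neg h9.ne, zero_add]
      exact h6 j hj j' hj' h9
    · subst h9
      rw [if_pos rfl]
      linarith [h7 j hj]
    · rw [if_neg h9.ne', zero_add]
      refine le_trans (le_of_eq ?_) (h6 j' hj' j hj h9)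
      exact mean_congr fun τ _ _ => mul_comm _ _
  have h9 : ∑ j ∈ S, ∑ j' ∈ S, ((if j = j' then (1 : ℝ) else 0) + b) =
      S.card + S.card ^ 2 * b := by
    simp only [Finset.sum_add_distrib, Finset.sum_ite_eq, Finset.sum_const, nsmul_eq_mul]
    rw [Finset.sum_congr rfl fun j hj => if_pos hj]
    simp
    ring
  rw [h4, h5] at h3
  linarith

theorem exists_spread (hY : ∀ i, (Y i).Nonempty) (hVV : (VV : Filter ℕ) ≤ atTop)
    (U : Finset (List H)) (i : ℕ) {p δ b : ℝ} (hp : plim Y VV c e U i = p) (hδ : 0 < δ)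
    {Z : Set ℕ} (hZ : Z ∈ VV)
    (hb : ∀ j ∈ Z, i ≤ j → (mean Y (j - i) i fun σ => ind (Good c e U σ) *
      plim Y VV c e (catR U σ) j) ≤ b) (N : ℕ) :
    ∃ S : Finset ℕ, S.card = N ∧ (∀ j ∈ S, j ∈ Z ∧ i ≤ j ∧ p - δ ≤ prob Y c e U i j) ∧
      ∀ j ∈ S, ∀ j' ∈ S, j < j' → prob2 Y c e U i j j' ≤ b + δ := by
  classical
  induction N with
  | zero => exact ⟨∅, rfl, fun j hj => (Finset.notMem_empty j hj).elim,
      fun j hj => (Finset.notMem_empty j hj).elim⟩
  | succ N ih =>
    obtain ⟨S, h1, h2, h3⟩ := ih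
    have h4 : ∀ᶠ j' in (VV : Filter ℕ), ∀ j ∈ S, prob2 Y c e U i j j' ≤ b + δ := by
      rw [Filter.eventually_all_finset]
      intro j hj
      have h5 := (prob2_tendsto hY hVV (c := c) (e := e) U i j (h2 j hj).2.1).eventually_lt_const
        (lt_of_le_of_lt (hb j (h2 j hj).1 (h2 j hj).2.1) (lt_add_of_pos_right b hδ))
      filter_upwards [h5] with j' hj'
      exact hj'.le
    have h6 : ∀ᶠ j' in (VV : Filter ℕ), p - δ < prob Y c e U i j' := by
      apply (tendsto_plim hY U i).eventually_const_lt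
      rw [hp]
      linarith
    have h7 : ∀ᶠ j' in (VV : Filter ℕ), i ≤ j' ∧ ∀ j ∈ S, j < j' := by
      have h8 : ∀ᶠ j' in (VV : Filter ℕ), max i (S.sup id + 1) ≤ j' :=
        hVV (eventually_ge_atTop _)
      filter_upwards [h8] with j' hj'
      refine ⟨(le_max_left _ _).trans hj', fun j hj => ?_⟩
      have h9 : j ≤ S.sup id := Finset.le_sup (f := id) hj
      have h10 := (le_max_right i (S.sup id + 1)).trans hj'
      omega
    obtain ⟨j', hj1, hj2, hj3, hj4⟩ := (h4.and (h6.and (h7.and hZ))).exists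
    have hnot : j' ∉ S := fun h => lt_irrefl _ (hj3.2 j' h)
    refine ⟨insert j' S, by rw [Finset.card_insert_of_notMem hnot, h1], ?_, ?_⟩
    · intro j hj
      rcases Finset.mem_insert.1 hj with rfl | hj
      · exact ⟨hj4, hj3.1, hj2.le⟩
      · exact h2 j hj
    · intro j hj k hk hjk
      rcases Finset.mem_insert.1 hk with rfl | hk'
      · rcases Finset.mem_insert.1 hj with rfl | hj'
        · exact (lt_irrefl _ hjk).elim
        · exact hj1 j hj'
      · rcases Finset.mem_insert.1 hj with rfl | hj'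
        · have := hj3.2 k hk'
          omega
        · exact h3 j hj' k hk' hjk

/-- (c) -/
theorem exists_good (hY : ∀ i, (Y i).Nonempty) (hVV : (VV : Filter ℕ) ≤ atTop)
    (U : Finset (List H)) (i : ℕ) (hp : 0 < plim Y VV c e U i) :
    ∀ᶠ j in (VV : Filter ℕ), ∃ τ, IsPath Y i τ ∧ τ.length = j - i ∧ Good c e U τ ∧
      plim Y VV c e U i ^ 2 / 2 ≤ plim Y VV c e (catR U τ) j := by
  by_contra hcon
  have hZ := Ultrafilter.eventually_not.2 hcon
  set p := plim Y VV c e U i with hpdef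
  have hp1 : p ≤ 1 := plim_le_one hY U i
  have hb : ∀ j ∈ {j : ℕ | ¬ ∃ τ, IsPath Y i τ ∧ τ.length = j - i ∧ Good c e U τ ∧
      p ^ 2 / 2 ≤ plim Y VV c e (catR U τ) j}, i ≤ j →
      (mean Y (j - i) i fun σ => ind (Good c e U σ) * plim Y VV c e (catR U σ) j) ≤
        p ^ 2 / 2 := by
    intro j hj _
    rw [← mean_const hY (j - i) (p ^ 2 / 2) i]
    refine mean_le fun σ h1 h2 => ?_
    by_cases hg : Good c e U σ
    · rw [ind_true hg, one_mul]
      by_contra h3
      exact hj ⟨σ, h1, h2, hg, (not_le.1 h3).le⟩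
    · rw [ind_false hg, zero_mul]
      positivity
  set δ : ℝ := p ^ 2 / 16 with hδ
  have hδpos : 0 < δ := by positivity
  obtain ⟨N, hN⟩ := exists_nat_gt (1 / δ)
  have hNpos : (0 : ℝ) < N := lt_trans (by positivity) hN
  obtain ⟨S, h1, h2, h3⟩ := exists_spread hY hVV (c := c) (e := e) U i rfl hδpos hZ hb N
  have h4 := second_moment hY (c := c) (e := e) U i S
    (b := p ^ 2 / 2 + δ) (by positivity) h3
  rw [h1] at h4
  have h5 : (N : ℝ) * (p - δ) ≤ ∑ j ∈ S, prob Y c e U i j := by
    rw [← h1, ← nsmul_eq_mul, ← Finset.sum_const]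
    exact Finset.sum_le_sum fun j hj => (h2 j hj).2.2
  have h6 : 0 ≤ p - δ := by
    rw [hδ]
    nlinarith
  have h7 : ((N : ℝ) * (p - δ)) ^ 2 ≤ N + N ^ 2 * (p ^ 2 / 2 + δ) :=
    (pow_le_pow_left₀ (by positivity) h5 2).trans h4
  have h8 : 1 < N * δ := by
    rw [div_lt_iff₀ hδpos] at hN
    linarith
  have h9 : (N : ℝ) < N ^ 2 * δ := by
    nlinarith
  have h10 : (N : ℝ) ^ 2 * (p - δ) ^ 2 < N ^ 2 * (p ^ 2 / 2 + 2 * δ) := by
    nlinarith
  have h11 : (p - δ) ^ 2 < p ^ 2 / 2 + 2 * δ := lt_of_mul_lt_mul_left h10 (by positivity)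
  have h12 : p * δ ≤ δ := by nlinarith
  nlinarith

end Pool.Agent.Helper98.T
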