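import Pool.Agent.Helper98.T.FunA2

/-!
Theorem 7: a continuous function on a product of finite trees is, on a smaller product, constant
or of the type of `A_n`.
-/

set_option autoImplicit false

open Filter Topology

namespace Pool.Agent.Helper98.T

variable {g : (ℕ → H) → ℕ → Bool} {X X' : ℕ → Finset H}

/-- the sequence which is `z'` below `m` and `z` from `m` on -/
def mix (z z' : ℕ → H) (m : ℕ) : ℕ → H := fun i => if i < m then z' i else z i

theorem mix_lt {z z' : ℕ → H} {m i : ℕ} (h : i < m) : mix z z' m i = z' i := if_pos h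

theorem mix_ge {z z' : ℕ → H} {m i : ℕ} (h : m ≤ i) : mix z z' m i = z i := if_neg (by omega)

theorem mix_br {z z' : ℕ → H} (h : Br 0 X z) (h' : Br 0 X z') (m : ℕ) : Br 0 X (mix z z' m) := by
  intro i hi
  rcases Nat.lt_or_ge i m with h1 | h1
  · rw [mix_lt h1]
    exact h' i hi
  · rw [mix_ge h1]
    exact h i hi

theorem gl_seg_snoc {z z' : ℕ → H} (m : ℕ) (x : H) :
    gl (seg z' 0 m ++ [x]) z = fun i => if i < m then z' i else if i = m then x else z i := by
  funext i
  have hl : (seg z' 0 m ++ [x]).length = m + 1 := by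
    rw [List.length_append, seg_length, List.length_singleton, Nat.sub_zero]
  rcases lt_trichotomy i m with h | h | h
  · rw [if_pos h, gl_lt (by omega), List.getElem_append_left (by rw [seg_length]; omega), seg_get,
      Nat.zero_add]
  · rw [if_neg (by omega), if_pos h, gl_lt (by omega), List.getElem_append_right
      (by rw [seg_length]; omega)]
    simp
  · rw [if_neg (by omega), if_neg (by omega), gl_ge (by omega)]

theorem mix_eq_gl {z z' : ℕ → H} (m : ℕ) : mix z z' m = gl (seg z' 0 m ++ [z m]) z := by
  rw [gl_seg_snoc]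
  funext i
  rcases lt_trichotomy i m with h | h | h
  · rw [if_pos h, mix_lt h]
  · rw [if_neg (by omega), if_pos h, mix_ge (by omega), h]
  · rw [if_neg (by omega), if_neg (by omega), mix_ge (by omega)]

theorem mix_succ_eq_gl {z z' : ℕ → H} (m : ℕ) :
    mix z z' (m + 1) = gl (seg z' 0 m ++ [z' m]) z := by
  rw [gl_seg_snoc]
  funext i
  rcases lt_trichotomy i m with h | h | h
  · rw [if_pos h, mix_lt (by omega)]
  · rw [if_neg (by omega), if_pos h, mix_lt (by omega), h]
  · rw [if_neg (by omega), if_neg (by omega), mix_ge (by omega)]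

/-- if each single change is harmless then so is the whole change -/
theorem eq_of_steps (hg : ContX g X) {z z' : ℕ → H} (hz : Br 0 X z) (hz' : Br 0 X z')
    (h : ∀ m, g (mix z z' (m + 1)) = g (mix z z' m)) : g z = g z' := by
  have h1 : ∀ m, g (mix z z' m) = g z := by
    intro m
    induction m with
    | zero =>
      congr 1
    | succ m ih => rw [h m, ih]
  funext j
  obtain ⟨m, hm⟩ := hg z' hz' j
  rw [← hm (mix z z' m) (mix_br hz hz' m) fun i hi => mix_lt hi, h1 m]

theorem seg_path {z : ℕ → H} (hz : Br 0 X z) (m : ℕ) : IsPath X 0 (seg z 0 m) :=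
  seg_isPath fun i hi _ => hz i hi

theorem seg_len (z : ℕ → H) (m : ℕ) : (seg z 0 m).length = m := by
  rw [seg_length, Nat.sub_zero]

/-- all `J`-levels have the same `ν = n` -/
theorem canon_of_const (hg : ContX g X') {ν : List H → ℕ}
    (hν : ∀ u, IsPath X' 0 u → Lev g X' u (X' u.length) (ν u)) {n : ℕ}
    (hn : ∀ u, IsPath X' 0 u → 2 ≤ (X' u.length).card → ν u = n) :
    ∀ z z', Br 0 X' z → Br 0 X' z' → (g z = g z' ↔ ∀ i, EqN n (z i) (z' i)) := by
  have hback : ∀ z z', Br 0 X' z → Br 0 X' z' → (∀ i, EqN n (z i) (z' i)) → g z = g z' := by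
    intro z z' hz hz' h
    refine eq_of_steps hg hz hz' fun m => ?_
    rw [mix_succ_eq_gl, mix_eq_gl]
    have hp := seg_path hz' m
    by_cases hc : z m = z' m
    · rw [hc]
    · have hcard : 2 ≤ (X' (seg z' 0 m).length).card := by
        rw [seg_len]
        exact Finset.one_lt_card.2 ⟨z m, hz m (Nat.zero_le _), z' m, hz' m (Nat.zero_le _), hc⟩
      have h1 := hν _ hp
      rw [hn _ hp hcard] at h1
      have h2 := (h1 (z' m) (by rw [seg_len]; exact hz' m (Nat.zero_le _)) (z m)
        (by rw [seg_len]; exact hz m (Nat.zero_le _))).1 (h m).symm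
      exact h2 z (hz.mono_level (Nat.zero_le _))
  intro z z' hz hz'
  refine ⟨fun h => ?_, hback z z' hz hz'⟩
  by_contra hcon
  push Not at hcon
  classical
  set m := Nat.find hcon with hm
  have hm1 : ¬ EqN n (z m) (z' m) := Nat.find_spec hcon
  have hm2 : ∀ i < m, EqN n (z i) (z' i) := by
    intro i hi
    exact not_not.1 (Nat.find_min hcon hi)
  have h1 : g (mix z' z m) = g z' := by
    refine hback _ _ (mix_br hz' hz m) hz' fun i => ?_
    rcases Nat.lt_or_ge i m with h2 | h2
    · rw [mix_lt h2]
      exact hm2 i h2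
    · rw [mix_ge h2]
      exact EqN.refl _ _
  have hp := seg_path hz m
  have hne : z m ≠ z' m := fun h2 => hm1 (by rw [h2]; exact EqN.refl _ _)
  have hcard : 2 ≤ (X' (seg z 0 m).length).card := by
    rw [seg_len]
    exact Finset.one_lt_card.2 ⟨z m, hz m (Nat.zero_le _), z' m, hz' m (Nat.zero_le _), hne⟩
  have h2 := hν _ hp
  rw [hn _ hp hcard] at h2
  obtain ⟨j, b, h3⟩ := (h2 (z m) (by rw [seg_len]; exact hz m (Nat.zero_le _)) (z' m)
    (by rw [seg_len]; exact hz' m (Nat.zero_le _))).2 hm1
  rw [seg_len] at h3
  have h4 := (h3 z (hz.mono_level (Nat.zero_le _))).1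
  have h5 := (h3 z' (hz'.mono_level (Nat.zero_le _))).2
  rw [← mix_eq_gl, h1, ← h] at h5
  have h6 : gl (seg z 0 m ++ [z m]) z = z := by
    rw [gl_seg_snoc]
    funext i
    rcases lt_trichotomy i m with h | h | h
    · rw [if_pos h]
    · rw [if_neg (by omega), if_pos h, h]
    · rw [if_neg (by omega), if_neg (by omega)]
  rw [h6] at h4
  rw [h4] at h5
  revert h5
  cases b <;> simp

theorem const_of_sim (hg : ContX g X) {Z : ℕ → Finset H} (hZX : LeX 0 Z X)
    (h : ∀ u, IsPath Z 0 u → ∀ v ∈ Z u.length, ∀ v' ∈ Z u.length,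
      Sim g X (u.length + 1) (u ++ [v]) (u ++ [v'])) :
    ∀ z z', Br 0 Z z → Br 0 Z z' → g z = g z' := by
  intro z z' hz hz'
  refine eq_of_steps hg (hz.mono hZX) (hz'.mono hZX) fun m => ?_
  rw [mix_succ_eq_gl, mix_eq_gl]
  have h1 := h _ (seg_path hz' m) (z' m) (by rw [seg_len]; exact hz' m (Nat.zero_le _)) (z m)
    (by rw [seg_len]; exact hz m (Nat.zero_le _))
  exact h1 z ((hz.mono hZX).mono_level (Nat.zero_le _))

/-- keep a tidy family tidy: make the `J`-levels exact again -/
theorem IsXX.of_le_tidy {k : ℕ} (h : IsXX k X) : ∃ X', LeX k X' X ∧ IsXX k X' ∧ IsTidy k X' :=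
  exists_tidy h

/-- THEOREM 7 -/
theorem theorem7 (hX : IsXX 0 X) (hg : ContX g X) :
    ∃ X', LeX 0 X' X ∧ IsXX 0 X' ∧ IsTidy 0 X' ∧
      ((∀ z z', Br 0 X' z → Br 0 X' z' → g z = g z') ∨
        ∃ n, ∀ z z', Br 0 X' z → Br 0 X' z' → (g z = g z' ↔ ∀ i, EqN n (z i) (z' i))) := by
  classical
  obtain ⟨X1, h1, h2, _, h4⟩ := exists_lev hX hg
  have hν : ∀ u, ∃ ν, IsPath X1 0 u → Lev g X1 u (X1 u.length) ν := by
    intro u
    by_cases hu : IsPath X1 0 u
    · obtain ⟨ν, hν⟩ := h4 u hu
      exact ⟨ν, fun _ => hν⟩
    · exact ⟨0, fun h => (hu h).elim⟩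
  choose ν hν using hν
  have hg1 : ContX g X1 := hg.mono h1
  -- it is enough to find a family on which the levels are constant, or all blocks are identified
  by_cases hcase : ∃ n, ∃ X2, LeX 0 X2 X1 ∧ IsXX 0 X2 ∧
      ∀ u, IsPath X2 0 u → 2 ≤ (X2 u.length).card → ν u ≤ n
  · set n := Nat.find hcase with hn
    obtain ⟨X2, h5, h6, h7⟩ := Nat.find_spec hcase
    obtain ⟨X3, h8, h9, h10⟩ : ∃ X3, LeX 0 X3 X2 ∧ IsXX 0 X3 ∧
        ∀ u, IsPath X3 0 u → 2 ≤ (X3 u.length).card → ν u = n := by
      rcases Nat.eq_zero_or_pos n with h0 | h0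
      · refine ⟨X2, LeX.refl _ _, h6, fun u hu hc => ?_⟩
        have := h7 u hu hc
        rw [← hn] at this
        omega
      · obtain ⟨X3, h8, h9, p, h10⟩ := lemmaW h6 (fun u => ν u ≤ n - 1)
        refine ⟨X3, h8, h9, fun u hu hc => ?_⟩
        by_cases hp : p
        · exfalso
          refine Nat.find_min hcase (m := n - 1) (by omega)
            ⟨X3, h8.trans h5, h9, fun u hu hc => ?_⟩
          rw [h10 u hu (by rwa [Nat.zero_add])]
          exact hp
        · have h11 : ¬ ν u ≤ n - 1 := by
            rw [h10 u hu (by rwa [Nat.zero_add])]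
            exact hp
          have h12 := h7 u (h8.isPath hu) (hc.trans (Finset.card_le_card (h8 _ (Nat.zero_le _))))
          rw [← hn] at h12
          omega
    obtain ⟨X4, h11, h12, h13⟩ := exists_tidy h9
    have h41 : LeX 0 X4 X1 := (h11.trans h8).trans h5
    refine ⟨X4, h41.trans h1, h12, h13, Or.inr ⟨n, ?_⟩⟩
    refine canon_of_const (hg1.mono h41) (ν := ν) (fun u hu => ?_) (fun u hu hc => ?_)
    · exact (hν u (h41.isPath hu)).mono (h41.mono (Nat.zero_le _)) (h41 _ (Nat.zero_le _))
    · exact h10 u (h11.isPath hu) (hc.trans (Finset.card_le_card (h11 _ (Nat.zero_le _))))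
  · -- Case 2
    push Not at hcase
    have hpt : ∀ l, ∃ v, v ∈ X1 l := fun l => h2.1 l (Nat.zero_le _)
    choose pt hpt using hpt
    set P : ℕ → ℕ → (ℕ → Finset H) → Prop := fun n i Z =>
      (∀ l < i, Z l ⊆ X1 l ∧ (Z l).Nonempty) ∧ n ≤ i ∧
        (n ≠ 0 → ∃ l < i, n ≤ l + 1 ∧ Large n (Z l)) ∧
        (∀ l < i, ∃ N e, N ≠ 1 ∧ Ex N N (Z l) e) ∧
        ∀ u, IsPath Z 0 u → u.length < i → ∀ v ∈ Z u.length, ∀ v' ∈ Z u.length,
          Sim g X1 (u.length + 1) (u ++ [v]) (u ++ [v']) with hP
    have hcongr : ∀ n i Z Z', (∀ l < i, Z' l = Z l) → P n i Z → P n i Z' := by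
      rintro n i Z Z' hZ ⟨h1, h2, h3, h4, h5⟩
      refine ⟨fun l hl => ?_, h2, fun hn => ?_, fun l hl => ?_, fun u hu hl => ?_⟩
      · rw [hZ l hl]
        exact h1 l hl
      · obtain ⟨l, h6, h7, h8⟩ := h3 hn
        exact ⟨l, h6, h7, by rw [hZ l h6]; exact h8⟩
      · rw [hZ l hl]
        exact h4 l hl
      · rw [hZ _ hl]
        exact h5 u ((IsPath.congr fun l _ hl' => hZ l (by omega)).1 hu) hl
    have h0 : P 0 0 X1 :=
      ⟨fun l hl => (Nat.not_lt_zero l hl).elim, le_rfl, fun h => (h rfl).elim,
        fun l hl => (Nat.not_lt_zero l hl).elim, fun u _ hl => (Nat.not_lt_zero _ hl).elim⟩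
    have hstep : ∀ n i Z, P n i Z → ∃ i' > i, ∃ Z', (∀ l < i, Z' l = Z l) ∧
        P (n + 1) i' Z' := by
      rintro n i Z ⟨hZ, hni, h3, hZt, h5⟩
      set U := pathsF Z i 0 with hU
      obtain ⟨X2, hX2, hX2', p, hp⟩ := lemmaW (h2.mono (Nat.zero_le i))
        (fun u => fun y : {y // y ∈ U} => ν (y.1 ++ u) ≤ n + 2)
      -- the constant value is false for every `y`
      have hfalse : ∀ y, ¬ p y := by
        rintro ⟨y, hy⟩ hpy
        obtain ⟨hyl, hyp⟩ := mem_pathsF.1 hy
        set X3 : ℕ → Finset H := fun l => if l < i then {y.getD l 0} else X2 l with hX3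
        have hX3lt : ∀ l < i, X3 l = {y.getD l 0} := fun l hl => if_pos hl
        have hX3ge : ∀ l, i ≤ l → X3 l = X2 l := fun l hl => if_neg (by omega)
        have hle3 : LeX 0 X3 X1 := by
          intro l _
          rcases Nat.lt_or_ge l i with h6 | h6
          · rw [hX3lt l h6, Finset.singleton_subset_iff, List.getD_eq_getElem _ _ (by omega)]
            have := (isPath_iff_get.1 hyp) l (by omega)
            rw [Nat.zero_add] at this
            exact (hZ l h6).1 this
          · rw [hX3ge l h6]
            exact hX2 l h6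
        have hxx3 : IsXX 0 X3 := by
          refine ⟨fun l _ => ?_, fun M => ?_⟩
          · rcases Nat.lt_or_ge l i with h6 | h6
            · rw [hX3lt l h6]
              exact Finset.singleton_nonempty _
            · rw [hX3ge l h6]
              exact hX2'.1 l h6
          · have h6 := (hX2'.2 M).and_eventually (eventually_ge_atTop i)
            refine h6.mono ?_
            rintro l ⟨h7, h8⟩
            rw [hX3ge l h8]
            exact h7
        obtain ⟨u, hu1, hu2, hu3⟩ := hcase (n + 2) X3 hle3 hxx3
        have hui : i ≤ u.length := by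
          by_contra h6
          rw [hX3lt _ (by omega), Finset.card_singleton] at hu2
          omega
        have hu' : IsPath X3 0 (u.take i ++ u.drop i) := by rwa [List.take_append_drop]
        rw [isPath_append] at hu'
        have hlen : (u.take i).length = i := by rw [List.length_take]; omega
        have hty : u.take i = y := by
          apply List.ext_getElem
          · rw [hlen, hyl]
          · intro l h6 h7
            have h8 := (isPath_iff_get.1 hu'.1) l h6
            rw [Nat.zero_add, hX3lt l (by omega), Finset.mem_singleton] at h8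
            rw [h8, List.getD_eq_getElem _ _ h7]
        have hdrop : IsPath X2 i (u.drop i) := by
          have h6 := hu'.2
          rw [hlen, Nat.zero_add] at h6
          exact (IsPath.congr fun l hl _ => hX3ge l hl).1 h6
        have hdl : i + (u.drop i).length = u.length := by
          rw [List.length_drop]
          omega
        have h6 := hp (u.drop i) hdrop (by rw [hdl, ← hX3ge _ hui]; exact hu2)
        have h7 : (ν (y ++ u.drop i) ≤ n + 2) = p ⟨y, hy⟩ := congrFun h6 ⟨y, hy⟩
        have h9 : y ++ u.drop i = u := by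
          rw [← hty, List.take_append_drop]
        rw [h9] at h7
        have h8 : ν u ≤ n + 2 := by
          rw [h7]
          exact hpy
        omega
      obtain ⟨m, him, hm⟩ := (frequently_atTop.1 (hX2'.2 (n + 2))) i
      obtain ⟨e, he⟩ := hm
      obtain ⟨W, hW, hWe⟩ := he.exists_ex
      have hWne : W.Nonempty := hWe.nonempty (by omega)
      have hpt2 : ∀ l, ∃ v, i ≤ l → v ∈ X2 l := by
        intro l
        by_cases hl : i ≤ l
        · obtain ⟨v, hv⟩ := hX2'.1 l hl
          exact ⟨v, fun _ => hv⟩
        · exact ⟨0, fun h => (hl h).elim⟩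
      choose pt2 hpt2 using hpt2
      set Z' : ℕ → Finset H := fun l => if l < i then Z l else if l < m then {pt2 l} else W
        with hZ'
      have hZlt : ∀ l < i, Z' l = Z l := fun l hl => if_pos hl
      have hZmid : ∀ l, i ≤ l → l < m → Z' l = {pt2 l} := by
        intro l h5 h6
        simp only [hZ']
        rw [if_neg (by omega), if_pos h6]
      have hZm : Z' m = W := by
        simp only [hZ']
        rw [if_neg (by omega), if_neg (by omega)]
      refine ⟨m + 1, by omega, Z', hZlt, fun l hl => ?_, by omega,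
        fun _ => ⟨m, by omega, by omega, ?_⟩, fun l hl => ?_, fun u hu hul => ?_⟩
      · rcases Nat.lt_or_ge l i with h6 | h6
        · rw [hZlt l h6]
          exact hZ l h6
        · rcases Nat.lt_or_ge l m with h7 | h7
          · rw [hZmid l h6 h7]
            exact ⟨Finset.singleton_subset_iff.2 (hX2 l h6 (hpt2 l h6)),
              Finset.singleton_nonempty _⟩
          · have h8 : l = m := by omega
            rw [h8, hZm]
            exact ⟨hW.trans (hX2 m him), hWne⟩
      · rw [hZm]
        exact (show Large (n + 2) W from ⟨e, hWe.lg⟩).anti (by omega)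
      · rcases Nat.lt_or_ge l i with h6 | h6
        · rw [hZlt l h6]
          exact hZt l h6
        · rcases Nat.lt_or_ge l m with h7 | h7
          · rw [hZmid l h6 h7]
            exact ⟨0, _, by omega, rfl⟩
          · have h8 : l = m := by omega
            rw [h8, hZm]
            exact ⟨n + 2, e, by omega, hWe⟩
      · rcases Nat.lt_or_ge u.length i with h6 | h6
        · rw [hZlt _ h6]
          exact h5 u ((IsPath.congr fun l _ hl' => hZlt l (by omega)).1 hu) h6
        · rcases Nat.lt_or_ge u.length m with h7 | h7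
          · rw [hZmid _ h6 h7]
            intro v hv v' hv'
            rw [Finset.mem_singleton.1 hv, Finset.mem_singleton.1 hv']
            exact fun z _ => rfl
          · have h8 : u.length = m := by omega
            intro v hv v' hv'
            have hv1 : v ∈ W := by rw [← hZm, ← h8]; exact hv
            have hv1' : v' ∈ W := by rw [← hZm, ← h8]; exact hv'
            have hu' : IsPath Z' 0 (u.take i ++ u.drop i) := by rwa [List.take_append_drop]
            rw [isPath_append] at hu'
            have hlen : (u.take i).length = i := by rw [List.length_take]; omega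
            have hU1 : u.take i ∈ U := by
              rw [hU, mem_pathsF]
              exact ⟨hlen, (IsPath.congr fun l _ hl => hZlt l (by omega)).1 hu'.1⟩
            have hdrop : IsPath X2 i (u.drop i) := by
              have h9 := hu'.2
              rw [hlen, Nat.zero_add] at h9
              refine IsPath.mono (fun l h10 h11 => ?_) h9
              rw [List.length_drop] at h11
              rw [hZmid l h10 (by omega), Finset.singleton_subset_iff]
              exact hpt2 l h10
            have hdl : i + (u.drop i).length = m := by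
              rw [List.length_drop]
              omega
            have hcard : 2 ≤ (X2 (i + (u.drop i).length)).card := by
              rw [hdl]
              exact (show 2 ≤ n + 2 by omega).trans
                ((show Large (n + 2) (X2 m) from ⟨e, he⟩).le_card)
            have h9 := hp (u.drop i) hdrop hcard
            have h10 : (ν (u.take i ++ u.drop i) ≤ n + 2) = p ⟨u.take i, hU1⟩ :=
              congrFun h9 ⟨u.take i, hU1⟩
            rw [List.take_append_drop] at h10
            have h11 : ¬ ν u ≤ n + 2 := by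
              rw [h10]
              exact hfalse _
            have hZX1 : ∀ l < m, Z' l ⊆ X1 l := by
              intro l hl
              rcases Nat.lt_or_ge l i with h12 | h12
              · rw [hZlt l h12]
                exact (hZ l h12).1
              · rw [hZmid l h12 hl]
                exact Finset.singleton_subset_iff.2 (hX2 l h12 (hpt2 l h12))
            have hu1 : IsPath X1 0 u := hu.mono fun l _ hl => hZX1 l (by omega)
            have hWX1 : W ⊆ X1 u.length := by
              rw [h8]
              exact hW.trans (hX2 m him)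
            have h12 := ((hν u hu1) v (hWX1 hv1) v' (hWX1 hv1')).1
            apply h12
            exact ((hWe.eqN v hv1).trans (hWe.eqN v' hv1').symm).mono (by omega)
    obtain ⟨X2, L, hL1, _, hL3⟩ := exists_limit P hcongr 0 _ h0 hstep
    have hLn : ∀ n, n ≤ L n := fun n => hL1.id_le n
    have hlt : ∀ i, i < L (i + 1) := fun i => by have := hLn (i + 1); omega
    have hle : LeX 0 X2 X1 := fun i _ => ((hL3 (i + 1)).1 i (hlt i)).1
    refine ⟨X2, hle.trans h1, ⟨fun i _ => ((hL3 (i + 1)).1 i (hlt i)).2, fun M => ?_⟩,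
      fun i _ => (hL3 (i + 1)).2.2.2.1 i (hlt i), Or.inl ?_⟩
    · rw [frequently_atTop]
      intro a
      obtain ⟨l, _, h6, h7⟩ := (hL3 (max M (a + 1))).2.2.1 (by
        have := le_max_right M (a + 1)
        omega)
      refine ⟨l, ?_, h7.anti (le_max_left _ _)⟩
      have := le_max_right M (a + 1)
      omega
    · exact const_of_sim hg1 hle fun u hu => (hL3 (u.length + 1)).2.2.2.2 u hu (hlt _)

end Pool.Agent.Helper98.T
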