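import Mathlib
import Pool.Agent.Helper94.SWRamsey

/-!
Finite trees of finitely supported functions: largeness, colours, density, pairs and
canonical equivalence relations.
-/

set_option autoImplicit false

namespace Pool.Agent.Helper98.T

/-- finitely supported functions `ω → ω` -/
abbrev H := ℕ →₀ ℕ

/-- agreement from the coordinate `n` on -/
def EqN (n : ℕ) (v w : H) : Prop := ∀ i, n ≤ i → v i = w i

/-- `(v, w)` is a `j`-pair -/
def Pr (j : ℕ) (v w : H) : Prop := EqN (j + 1) v w ∧ v j < w j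

/-- change the value at one place -/
noncomputable def upd (e : H) (i c : ℕ) : H := e.update i c

theorem upd_same (e : H) (i c : ℕ) : upd e i c i = c := by
  simp [upd]

theorem upd_ne (e : H) {i k : ℕ} (c : ℕ) (h : k ≠ i) : upd e i c k = e k := by
  simp [upd, Finsupp.update, Function.update, h]

theorem EqN.refl (n : ℕ) (v : H) : EqN n v v := fun _ _ => rfl

theorem EqN.symm {n : ℕ} {v w : H} (h : EqN n v w) : EqN n w v := fun i hi => (h i hi).symm

theorem EqN.trans {n : ℕ} {v w u : H} (h : EqN n v w) (h' : EqN n w u) : EqN n v u :=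
  fun i hi => (h i hi).trans (h' i hi)

theorem EqN.mono {n m : ℕ} {v w : H} (h : EqN n v w) (hm : n ≤ m) : EqN m v w :=
  fun i hi => h i (hm.trans hi)

theorem EqN.zero {v w : H} (h : EqN 0 v w) : v = w := Finsupp.ext fun i => h i (Nat.zero_le _)

theorem eqN_upd (e : H) (i c : ℕ) : EqN (i + 1) (upd e i c) e :=
  fun k hk => upd_ne e c (by omega)

theorem exists_pr {v w : H} (h : v ≠ w) : ∃ j, Pr j v w ∨ Pr j w v := by
  classical
  have hne : (Finset.filter (fun i => v i ≠ w i) (v.support ∪ w.support)).Nonempty := by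
    by_contra hcon
    apply h
    ext i
    by_contra hi
    apply hcon
    refine ⟨i, Finset.mem_filter.2 ⟨?_, hi⟩⟩
    rw [Finset.mem_union, Finsupp.mem_support_iff, Finsupp.mem_support_iff]
    by_contra h2
    push Not at h2
    rw [h2.1, h2.2] at hi
    exact hi rfl
  obtain ⟨j, hj, hmax⟩ := Finset.exists_max_image _ id hne
  have hj' := (Finset.mem_filter.1 hj).2
  have he : EqN (j + 1) v w := by
    intro i hi
    by_contra h2
    have : i ∈ Finset.filter (fun i => v i ≠ w i) (v.support ∪ w.support) := by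
      refine Finset.mem_filter.2 ⟨?_, h2⟩
      rw [Finset.mem_union, Finsupp.mem_support_iff, Finsupp.mem_support_iff]
      by_contra h3
      push Not at h3
      rw [h3.1, h3.2] at h2
      exact h2 rfl
    have := hmax i this
    simp only [id] at this
    omega
  rcases lt_or_gt_of_ne hj' with h1 | h1
  · exact ⟨j, Or.inl ⟨he, h1⟩⟩
  · exact ⟨j, Or.inr ⟨he.symm, h1⟩⟩

theorem Pr.eqN_iff {j n : ℕ} {v w : H} (h : Pr j v w) : EqN n v w ↔ j < n := by
  constructor
  · intro h1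
    by_contra h2
    have := h1 j (by omega)
    have := h.2
    omega
  · intro h1
    exact h.1.mono h1

/-- `Lg i M V e`: the set `V` contains a tree over `e` of height `i` and branching at least `M` -/
def Lg : ℕ → ℕ → Finset H → H → Prop
  | 0, _, V, e => e ∈ V
  | i + 1, M, V, e => ∃ C : Finset ℕ, M ≤ C.card ∧ ∀ c ∈ C, Lg i M V (upd e i c)

/-- `Ex i M V e`: the set `V` is an exact tree over `e` of height `i` and branching `M` -/
def Ex : ℕ → ℕ → Finset H → H → Prop
  | 0, _, V, e => V = {e}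
  | i + 1, M, V, e => ∃ C : Finset ℕ, C.card = M ∧ ∃ f : ℕ → Finset H,
      (∀ c ∈ C, Ex i M (f c) (upd e i c)) ∧ V = C.biUnion f

/-- `M`-large sets -/
def Large (M : ℕ) (V : Finset H) : Prop := ∃ e, Lg M M V e

theorem Lg.mono {i M : ℕ} {V W : Finset H} (hVW : V ⊆ W) :
    ∀ {e : H}, Lg i M V e → Lg i M W e := by
  induction i with
  | zero => exact fun h => hVW h
  | succ i ih =>
    rintro e ⟨C, hC, h⟩
    exact ⟨C, hC, fun c hc => ih (h c hc)⟩

theorem Lg.anti {i M M' : ℕ} {V : Finset H} (hM : M' ≤ M) :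
    ∀ {e : H}, Lg i M V e → Lg i M' V e := by
  induction i with
  | zero => exact fun h => h
  | succ i ih =>
    rintro e ⟨C, hC, h⟩
    exact ⟨C, hM.trans hC, fun c hc => ih (h c hc)⟩

theorem Ex.lg {i M : ℕ} : ∀ {V : Finset H} {e : H}, Ex i M V e → Lg i M V e := by
  induction i with
  | zero =>
    intro V e h
    have h : V = {e} := h
    show e ∈ V
    rw [h]
    exact Finset.mem_singleton_self _
  | succ i ih =>
    rintro V e ⟨C, hC, f, hf, rfl⟩
    exact ⟨C, hC.ge, fun c hc => (ih (hf c hc)).mono (Finset.subset_biUnion_of_mem f hc)⟩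

theorem Lg.exists_ex {i M : ℕ} {V : Finset H} :
    ∀ {e : H}, Lg i M V e → ∃ W, W ⊆ V ∧ Ex i M W e := by
  induction i with
  | zero =>
    intro e h
    exact ⟨{e}, Finset.singleton_subset_iff.2 h, rfl⟩
  | succ i ih =>
    rintro e ⟨C, hC, h⟩
    obtain ⟨C', hC', hcard⟩ := Finset.exists_subset_card_eq hC
    have : ∀ c, ∃ W, c ∈ C → (W ⊆ V ∧ Ex i M W (upd e i c)) := by
      intro c
      by_cases hc : c ∈ C
      · obtain ⟨W, hW⟩ := ih (h c hc)
        exact ⟨W, fun _ => hW⟩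
      · exact ⟨∅, fun h => (hc h).elim⟩
    choose f hf using this
    refine ⟨C'.biUnion f, ?_, C', hcard, f, fun c hc => (hf c (hC' hc)).2, rfl⟩
    exact Finset.biUnion_subset.2 fun c hc => (hf c (hC' hc)).1

theorem Ex.eqN {i M : ℕ} : ∀ {V : Finset H} {e : H}, Ex i M V e → ∀ v ∈ V, EqN i v e := by
  induction i with
  | zero =>
    intro V e h v hv
    have h : V = {e} := h
    rw [h, Finset.mem_singleton] at hv
    rw [hv]
    exact EqN.refl _ _
  | succ i ih =>
    rintro V e ⟨C, hC, f, hf, rfl⟩ v hv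
    obtain ⟨c, hc, hv⟩ := Finset.mem_biUnion.1 hv
    exact ((ih (hf c hc) v hv).mono (Nat.le_succ i)).trans (eqN_upd e i c)

theorem Ex.coord {i M c : ℕ} {V : Finset H} {e : H} (h : Ex i M V (upd e i c)) {v : H}
    (hv : v ∈ V) : v i = c := by
  rw [h.eqN v hv i le_rfl, upd_same]

theorem Ex.card {i M : ℕ} : ∀ {V : Finset H} {e : H}, Ex i M V e → V.card = M ^ i := by
  induction i with
  | zero =>
    intro V e h
    have h : V = {e} := h
    rw [h]
    simp
  | succ i ih =>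
    rintro V e ⟨C, hC, f, hf, rfl⟩
    rw [Finset.card_biUnion]
    · rw [Finset.sum_congr rfl fun c hc => ih (hf c hc), Finset.sum_const, hC, smul_eq_mul,
        pow_succ, mul_comm]
    · intro c hc d hd hcd
      rw [Function.onFun, Finset.disjoint_left]
      intro v h1 h2
      exact hcd (((hf c hc).coord h1).symm.trans ((hf d hd).coord h2))

theorem Ex.nonempty {i M : ℕ} (hM : 1 ≤ M) {V : Finset H} {e : H} (h : Ex i M V e) :
    V.Nonempty := by
  rw [← Finset.card_pos, h.card]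
  exact Nat.pow_pos hM

/-- go down in the tree -/
theorem Lg.down {i M : ℕ} (hM : 1 ≤ M) {V : Finset H} (d : ℕ) :
    ∀ {e : H}, Lg (i + d) M V e → ∃ e', EqN (i + d) e' e ∧ Lg i M V e' := by
  induction d with
  | zero => exact fun {e} h => ⟨e, EqN.refl _ _, h⟩
  | succ d ih =>
    rintro e ⟨C, hC, h⟩
    obtain ⟨c, hc⟩ := Finset.card_pos.1 (lt_of_lt_of_le hM hC)
    obtain ⟨e', h1, h2⟩ := ih (h c hc)
    exact ⟨e', (h1.mono (Nat.le_succ _)).trans (eqN_upd e (i + d) c), h2⟩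

theorem Lg.nonempty {i M : ℕ} (hM : 1 ≤ M) {V : Finset H} {e : H} (h : Lg i M V e) :
    V.Nonempty := by
  obtain ⟨e', _, h2⟩ := Lg.down (i := 0) hM i (by rwa [Nat.zero_add] : Lg (0 + i) M V e)
  exact ⟨e', h2⟩

theorem Large.mono {M : ℕ} {V W : Finset H} (h : Large M V) (hVW : V ⊆ W) : Large M W := by
  obtain ⟨e, he⟩ := h
  exact ⟨e, he.mono hVW⟩

theorem Large.anti {M M' : ℕ} {V : Finset H} (h : Large M V) (hM : M' ≤ M) : Large M' V := by
  obtain ⟨e, he⟩ := h
  rcases Nat.eq_zero_or_pos M with h0 | h0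
  · have : M' = M := by omega
    rw [this]
    exact ⟨e, he⟩
  · obtain ⟨d, rfl⟩ := Nat.exists_eq_add_of_le hM
    obtain ⟨e', _, h2⟩ := Lg.down h0 d he
    exact ⟨e', h2.anti hM⟩

theorem Large.nonempty {M : ℕ} {V : Finset H} (h : Large M V) : V.Nonempty := by
  obtain ⟨e, he⟩ := h
  rcases Nat.eq_zero_or_pos M with h0 | h0
  · rw [h0] at he
    exact ⟨e, he⟩
  · exact he.nonempty h0

/-- (1.2) colours -/
theorem Lg.color {κ : Type*} [Fintype κ] [DecidableEq κ] (f : H → κ) {i M : ℕ}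
    {V : Finset H} : ∀ {e : H}, Lg i (Fintype.card κ * M) V e →
    ∃ k : κ, Lg i M (V.filter fun v => f v = k) e := by
  induction i with
  | zero =>
    intro e h
    exact ⟨f e, Finset.mem_filter.2 ⟨h, rfl⟩⟩
  | succ i ih =>
    rintro e ⟨C, hC, h⟩
    have hk : ∀ c, ∃ k : κ, c ∈ C → Lg i M (V.filter fun v => f v = k) (upd e i c) := by
      intro c
      by_cases hc : c ∈ C
      · obtain ⟨k, hk⟩ := ih (h c hc)
        exact ⟨k, fun _ => hk⟩
      · exact ⟨f 0, fun h => (hc h).elim⟩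
    choose g hg using hk
    have hne : (Finset.univ : Finset κ).Nonempty := ⟨f 0, Finset.mem_univ _⟩
    obtain ⟨k, _, hk⟩ := Finset.exists_le_card_fiber_of_mul_le_card_of_maps_to
      (s := C) (t := Finset.univ) (f := g) (n := M) (fun _ _ => Finset.mem_univ _) hne
      (by rw [Finset.card_univ]; exact hC)
    refine ⟨k, C.filter (fun c => g c = k), hk, fun c hc => ?_⟩
    obtain ⟨hc, hck⟩ := Finset.mem_filter.1 hc
    have := hg c hc
    rw [hck] at this
    exact this

theorem Large.color {κ : Type*} [Fintype κ] [DecidableEq κ] (f : H → κ) {M : ℕ} (hM : 1 ≤ M)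
    {V : Finset H} (h : Large (Fintype.card κ * M) V) :
    ∃ k : κ, Large M (V.filter fun v => f v = k) := by
  obtain ⟨e, he⟩ := h
  obtain ⟨k, hk⟩ := Lg.color f he
  have hc : 0 < Fintype.card κ := Fintype.card_pos_iff.2 ⟨f 0⟩
  obtain ⟨d, hd⟩ := Nat.exists_eq_add_of_le (Nat.le_mul_of_pos_left M hc)
  rw [hd] at hk
  obtain ⟨e', _, h2⟩ := Lg.down hM d hk
  exact ⟨k, e', h2⟩

theorem Lg.multicolor {κ : Type*} [Fintype κ] [DecidableEq κ] {ι : Type*} [DecidableEq ι]
    (c : ι → H → κ) {i M : ℕ} {e : H} (S : Finset ι) :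
    ∀ {V : Finset H}, Lg i (Fintype.card κ ^ S.card * M) V e →
    ∃ W, W ⊆ V ∧ Lg i M W e ∧ ∀ s ∈ S, ∃ k, ∀ w ∈ W, c s w = k := by
  induction S using Finset.induction_on with
  | empty =>
    intro V h
    rw [Finset.card_empty, pow_zero, one_mul] at h
    exact ⟨V, Finset.Subset.refl _, h, fun s hs => (Finset.notMem_empty s hs).elim⟩
  | insert a S ha ih =>
    intro V h
    rw [Finset.card_insert_of_notMem ha, pow_succ'] at h
    rw [mul_assoc] at h
    obtain ⟨k, hk⟩ := Lg.color (c a) h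
    obtain ⟨W, hW, h1, h2⟩ := ih hk
    refine ⟨W, hW.trans (Finset.filter_subset _ _), h1, fun s hs => ?_⟩
    rcases Finset.mem_insert.1 hs with rfl | hs
    · exact ⟨k, fun w hw => (Finset.mem_filter.1 (hW hw)).2⟩
    · exact h2 s hs

/-- (1.3) density -/
theorem Ex.lg_of_density {N M : ℕ} {i : ℕ} : ∀ {V : Finset H} {e : H}, Ex i N V e →
    ∀ {W : Finset H} {θ : ℝ}, 0 < θ → θ * V.card ≤ ((V ∩ W).card : ℝ) →
    (2 : ℝ) ^ i * M ≤ θ * N → Lg i M (V ∩ W) e := by
  induction i with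
  | zero =>
    intro V e h W θ hθ h1 _
    have h : V = {e} := h
    have hpos : (0 : ℝ) < ((V ∩ W).card : ℝ) := by
      refine lt_of_lt_of_le ?_ h1
      rw [h, Finset.card_singleton]
      simpa using hθ
    obtain ⟨x, hx⟩ := Finset.card_pos.1 (Nat.cast_pos.1 hpos)
    have hx1 := (Finset.mem_inter.1 hx).1
    rw [h, Finset.mem_singleton] at hx1
    show e ∈ V ∩ W
    rw [← hx1]
    exact hx
  | succ i ih =>
    rintro V e ⟨C, hC, f, hf, rfl⟩ W θ hθ h1 h2
    rcases Nat.eq_zero_or_pos M with hM | hM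
    · exact ⟨∅, by rw [hM]; exact Nat.zero_le _, fun c hc => (Finset.notMem_empty c hc).elim⟩
    have hNpos : 0 < N := by
      rcases Nat.eq_zero_or_pos N with h3 | h3
      · exfalso
        rw [h3] at h2
        have : (0 : ℝ) < 2 ^ (i + 1) * M := by positivity
        simp only [Nat.cast_zero, mul_zero] at h2
        linarith
      · exact h3
    set C' := C.filter fun c => θ / 2 * (f c).card ≤ ((f c ∩ W).card : ℝ) with hC'
    have hcardf : ∀ c ∈ C, ((f c).card : ℝ) = (N : ℝ) ^ i := by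
      intro c hc
      rw [(hf c hc).card]
      push_cast
      rfl
    have hV : ((C.biUnion f).card : ℝ) = (N : ℝ) ^ (i + 1) := by
      rw [(show Ex (i + 1) N (C.biUnion f) e from ⟨C, hC, f, hf, rfl⟩).card]
      push_cast
      rfl
    have hsum : (((C.biUnion f) ∩ W).card : ℝ) ≤ ∑ c ∈ C, ((f c ∩ W).card : ℝ) := by
      rw [Finset.biUnion_inter]
      exact_mod_cast Finset.card_biUnion_le
    have hsplit : ∑ c ∈ C, ((f c ∩ W).card : ℝ) ≤
        C'.card * (N : ℝ) ^ i + N * (θ / 2 * (N : ℝ) ^ i) := by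
      rw [← Finset.sum_filter_add_sum_filter_not C
        (fun c => θ / 2 * (f c).card ≤ ((f c ∩ W).card : ℝ))]
      apply add_le_add
      · calc ∑ c ∈ C', ((f c ∩ W).card : ℝ) ≤ ∑ c ∈ C', (N : ℝ) ^ i := by
              apply Finset.sum_le_sum
              intro c hc
              rw [← hcardf c (Finset.mem_filter.1 hc).1]
              exact_mod_cast Finset.card_le_card Finset.inter_subset_left
          _ = C'.card * (N : ℝ) ^ i := by rw [Finset.sum_const, nsmul_eq_mul]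
      · calc ∑ c ∈ C.filter (fun c => ¬ θ / 2 * (f c).card ≤ ((f c ∩ W).card : ℝ)),
              ((f c ∩ W).card : ℝ) ≤
              ∑ c ∈ C.filter (fun c => ¬ θ / 2 * (f c).card ≤ ((f c ∩ W).card : ℝ)),
                (θ / 2 * (N : ℝ) ^ i) := by
              apply Finset.sum_le_sum
              intro c hc
              obtain ⟨h3, h4⟩ := Finset.mem_filter.1 hc
              rw [← hcardf c h3]
              exact (not_le.1 h4).le
          _ = (C.filter (fun c => ¬ θ / 2 * (f c).card ≤ ((f c ∩ W).card : ℝ))).card *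
                (θ / 2 * (N : ℝ) ^ i) := by rw [Finset.sum_const, nsmul_eq_mul]
          _ ≤ N * (θ / 2 * (N : ℝ) ^ i) := by
              apply mul_le_mul_of_nonneg_right
              · rw [← hC]
                exact_mod_cast Finset.card_filter_le _ _
              · positivity
    have hpow : (0 : ℝ) < (N : ℝ) ^ i := by positivity
    have hkey : θ / 2 * N ≤ C'.card := by
      have h3 : θ * (N : ℝ) ^ (i + 1) ≤ C'.card * (N : ℝ) ^ i + N * (θ / 2 * (N : ℝ) ^ i) := by
        rw [← hV]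
        exact h1.trans (hsum.trans hsplit)
      have h4 : (θ / 2 * N) * (N : ℝ) ^ i ≤ C'.card * (N : ℝ) ^ i := by
        rw [pow_succ] at h3
        nlinarith
      exact le_of_mul_le_mul_right h4 hpow
    have h5 : (2 : ℝ) ^ i * M ≤ θ / 2 * N := by
      rw [pow_succ] at h2
      nlinarith
    refine ⟨C', ?_, fun c hc => ?_⟩
    · have h6 : (M : ℝ) ≤ 2 ^ i * M := by
        have : (1 : ℝ) ≤ 2 ^ i := one_le_pow₀ (by norm_num)
        nlinarith [(Nat.cast_pos (α := ℝ)).2 hM]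
      exact_mod_cast h6.trans (h5.trans hkey)
    · obtain ⟨h3, h4⟩ := Finset.mem_filter.1 hc
      have := ih (hf c h3) (W := W) (θ := θ / 2) (by positivity) h4 h5
      exact this.mono (Finset.inter_subset_inter (Finset.subset_biUnion_of_mem f h3)
        (Finset.Subset.refl _))

theorem Ex.exists_dense {N i : ℕ} (d : ℕ) : ∀ {V : Finset H} {e : H}, Ex (i + d) N V e →
    ∀ {W : Finset H} {θ : ℝ}, 0 < θ → θ * V.card ≤ ((V ∩ W).card : ℝ) → 1 ≤ N →
    ∃ V' e', V' ⊆ V ∧ Ex i N V' e' ∧ θ * V'.card ≤ ((V' ∩ W).card : ℝ) := by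
  induction d with
  | zero => exact fun {V e} h W θ _ h1 _ => ⟨V, e, Finset.Subset.refl _, h, h1⟩
  | succ d ih =>
    rintro V e ⟨C, hC, f, hf, rfl⟩ W θ hθ h1 hN
    have hcardf : ∀ c ∈ C, ((f c).card : ℝ) = (N : ℝ) ^ (i + d) := by
      intro c hc
      rw [(hf c hc).card]
      push_cast
      rfl
    have hV : ((C.biUnion f).card : ℝ) = (N : ℝ) ^ (i + d + 1) := by
      rw [(show Ex (i + d + 1) N (C.biUnion f) e from ⟨C, hC, f, hf, rfl⟩).card]
      push_cast
      rfl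
    have hex : ∃ c ∈ C, θ * (f c).card ≤ ((f c ∩ W).card : ℝ) := by
      by_contra hcon
      push Not at hcon
      have hCne : C.Nonempty := by
        rw [← Finset.card_pos, hC]
        exact hN
      have h2 : (((C.biUnion f) ∩ W).card : ℝ) < θ * (C.biUnion f).card := by
        calc (((C.biUnion f) ∩ W).card : ℝ) ≤ ∑ c ∈ C, ((f c ∩ W).card : ℝ) := by
              rw [Finset.biUnion_inter]
              exact_mod_cast Finset.card_biUnion_le
          _ < ∑ c ∈ C, θ * (N : ℝ) ^ (i + d) := by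
              apply Finset.sum_lt_sum_of_nonempty hCne
              intro c hc
              rw [← hcardf c hc]
              exact hcon c hc
          _ = θ * (C.biUnion f).card := by
              rw [Finset.sum_const, hV, hC, nsmul_eq_mul, pow_succ]
              ring
      linarith
    obtain ⟨c, hc, h2⟩ := hex
    obtain ⟨V', e', h3, h4, h5⟩ := ih (hf c hc) hθ h2 hN
    exact ⟨V', e', h3.trans (Finset.subset_biUnion_of_mem f hc), h4, h5⟩

/-- (1.3), consequence: dense subsets of exact trees are large -/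
theorem Ex.large_of_density {N M : ℕ} {V W : Finset H} {e : H} (h : Ex N N V e) {θ : ℝ}
    (hθ : 0 < θ) (h1 : θ * V.card ≤ ((V ∩ W).card : ℝ)) (h2 : (2 : ℝ) ^ M * M ≤ θ * N)
    (h3 : M ≤ N) : Large M (V ∩ W) := by
  rcases Nat.eq_zero_or_pos N with h0 | h0
  · have hM : M = 0 := by omega
    subst hM
    subst h0
    exact ⟨e, h.lg_of_density hθ h1 h2⟩
  · obtain ⟨d, rfl⟩ := Nat.exists_eq_add_of_le h3
    obtain ⟨V', e', h4, h5, h6⟩ := Ex.exists_dense d h hθ h1 h0
    exact ⟨e', (h5.lg_of_density hθ h6 h2).mono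
      (Finset.inter_subset_inter h4 (Finset.Subset.refl _))⟩

/-! ### (1.4) pairs -/

theorem pairs_low {κ : Type*} (c : H → H → κ) {i j M : ℕ} (hij : i ≤ j) {V : Finset H} {e : H}
    (h : Lg i M V e) : ∃ W, W ⊆ V ∧ Lg i M W e ∧ (∀ v ∈ W, EqN i v e) ∧
      ∃ k : κ, ∀ v ∈ W, ∀ w ∈ W, Pr j v w → c v w = k := by
  obtain ⟨W, hW, h1⟩ := h.exists_ex
  refine ⟨W, hW, h1.lg, h1.eqN, c 0 0, fun v hv w hw hp => ?_⟩
  have h2 := h1.eqN v hv j hij
  have h3 := h1.eqN w hw j hij
  have h4 := hp.2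
  omega

/-- the children, chosen one after the other -/
theorem pairs_step {κ : Type*} [Fintype κ] [DecidableEq κ] (c : H → H → κ) {j M1 K N : ℕ}
    {V : Finset H} {e : H} (g : ℕ → ℕ)
    (hN : ∀ b < K, Fintype.card κ ^ (b * M1 ^ j) * M1 ≤ N) (hκ : 1 ≤ Fintype.card κ)
    (hg : ∀ b < K, Lg j N V (upd e j (g b))) :
    ∀ b ≤ K, ∃ U : ℕ → Finset H, (∀ a < b, U a ⊆ V ∧ Ex j M1 (U a) (upd e j (g a))) ∧
      ∀ a b', a < b' → b' < b → ∀ v ∈ U a, ∃ k, ∀ w ∈ U b', c v w = k := by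
  intro b
  induction b with
  | zero => exact fun _ => ⟨fun _ => ∅, fun a ha => (Nat.not_lt_zero a ha).elim,
      fun a b' _ hb => (Nat.not_lt_zero b' hb).elim⟩
  | succ b ih =>
    intro hb
    obtain ⟨U, h1, h2⟩ := ih (by omega)
    set S : Finset H := (Finset.range b).biUnion U with hS
    have hScard : S.card ≤ b * M1 ^ j := by
      calc S.card ≤ ∑ a ∈ Finset.range b, (U a).card := Finset.card_biUnion_le
        _ = ∑ a ∈ Finset.range b, M1 ^ j :=
            Finset.sum_congr rfl fun a ha => (h1 a (Finset.mem_range.1 ha)).2.card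
        _ = b * M1 ^ j := by rw [Finset.sum_const, Finset.card_range, smul_eq_mul]
    have h3 : Fintype.card κ ^ S.card * M1 ≤ N :=
      (Nat.mul_le_mul_right _ (Nat.pow_le_pow_right hκ hScard)).trans (hN b (by omega))
    obtain ⟨W, hW, h4, h5⟩ := Lg.multicolor c S ((hg b (by omega)).anti h3)
    obtain ⟨W', hW', h6⟩ := h4.exists_ex
    refine ⟨fun a => if a = b then W' else U a, fun a ha => ?_, fun a b' hab hb' => ?_⟩
    · by_cases hab : a = b
      · simp only [hab, if_true]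
        exact ⟨hW'.trans hW, h6⟩
      · simp only [hab, if_false]
        exact h1 a (by omega)
    · have hab' : a ≠ b := by omega
      simp only [hab', if_false]
      intro v hv
      by_cases hb'b : b' = b
      · simp only [hb'b, if_true]
        obtain ⟨k, hk⟩ := h5 v (Finset.mem_biUnion.2 ⟨a, Finset.mem_range.2 (by omega), hv⟩)
        exact ⟨k, fun w hw => hk w (hW' hw)⟩
      · simp only [hb'b, if_false]
        exact h2 a b' hab (by omega) v hv

theorem exists_enum' (T : Finset ℕ) (K : ℕ) (hK : K ≤ T.card) :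
    ∃ g : ℕ → ℕ, (∀ a b, a < b → b < K → g a < g b) ∧ ∀ a < K, g a ∈ T := by
  obtain ⟨T', hT', hcard⟩ := Finset.exists_subset_card_eq hK
  let o := T'.orderIsoOfFin hcard
  refine ⟨fun a => if h : a < K then (o ⟨a, h⟩ : ℕ) else 0, fun a b hab hb => ?_, fun a ha => ?_⟩
  · have ha : a < K := hab.trans hb
    simp only [ha, hb, dif_pos]
    exact Subtype.coe_lt_coe.2 (o.strictMono (Fin.mk_lt_mk.2 hab))
  · simp only [ha, dif_pos]
    exact hT' (o ⟨a, ha⟩).2

theorem pairs_top (κ : Type) [Fintype κ] [DecidableEq κ] (j M : ℕ) (hM : 1 ≤ M) :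
    ∃ N, M ≤ N ∧ ∀ (V : Finset H) (e : H) (c : H → H → κ), Lg (j + 1) N V e →
      ∃ W, W ⊆ V ∧ Lg (j + 1) M W e ∧ (∀ v ∈ W, EqN (j + 1) v e) ∧
        ∃ k : κ, ∀ v ∈ W, ∀ w ∈ W, Pr j v w → c v w = k := by
  rcases isEmpty_or_nonempty κ with hκ | hκ
  · exact ⟨M, le_rfl, fun V e c _ => isEmptyElim (c 0 0)⟩
  have hr : 1 ≤ Fintype.card κ := Fintype.card_pos
  obtain ⟨K, hK⟩ := Pool.Agent.Helper94.SWRamsey.ramsey2 κ M
  set r := Fintype.card κ with hrdef
  set M1 := r ^ K * M with hM1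
  have hM1pos : 1 ≤ M1 := Nat.mul_pos (Nat.pow_pos hr) hM
  refine ⟨max (max M K) (r ^ (K * M1 ^ j) * M1), (le_max_left M K).trans (le_max_left _ _),
    fun V e c h => ?_⟩
  set N := max (max M K) (r ^ (K * M1 ^ j) * M1) with hN
  obtain ⟨C, hC, hCL⟩ := h
  have hKC : K ≤ C.card := ((le_max_right M K).trans (le_max_left _ _)).trans hC
  obtain ⟨g, hg1, hg2⟩ := exists_enum' C K hKC
  have hNb : ∀ b < K, r ^ (b * M1 ^ j) * M1 ≤ N := by
    intro b hb
    refine (Nat.mul_le_mul_right _ (Nat.pow_le_pow_right hr ?_)).trans (le_max_right _ _)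
    exact Nat.mul_le_mul_right _ hb.le
  obtain ⟨U, hU1, hU2⟩ := pairs_step c (V := V) (e := e) g hNb hr (fun b hb => hCL _ (hg2 b hb))
    K le_rfl
  -- representatives
  have hw : ∀ b, ∃ w, b < K → w ∈ U b := by
    intro b
    by_cases hb : b < K
    · obtain ⟨w, hw⟩ := (hU1 b hb).2.nonempty hM1pos
      exact ⟨w, fun _ => hw⟩
    · exact ⟨0, fun h => (hb h).elim⟩
  choose w hw using hw
  have hU' : ∀ a, ∃ U' : Finset H, ∃ k : ℕ → κ, a < K → (U' ⊆ U a ∧ Lg j M U' (upd e j (g a)) ∧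
      ∀ b < K, ∀ v ∈ U', c v (w b) = k b) := by
    intro a
    by_cases ha : a < K
    · have h1 : Lg j (r ^ (Finset.range K).card * M) (U a) (upd e j (g a)) := by
        rw [Finset.card_range]
        exact (hU1 a ha).2.lg
      obtain ⟨U', h2, h3, h4⟩ := Lg.multicolor (fun b v => c v (w b)) (Finset.range K) h1
      choose! k hk using h4
      exact ⟨U', k, fun _ => ⟨h2, h3, fun b hb => hk b (Finset.mem_range.2 hb)⟩⟩
    · exact ⟨∅, fun _ => hκ.some, fun h => (ha h).elim⟩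
  choose U' k hU' using hU'
  obtain ⟨h, h1, h2, col, hcol⟩ := hK (fun a b => k a b)
  refine ⟨(Finset.range M).biUnion fun a => U' (h a), ?_, ?_, ?_, col, ?_⟩
  · refine Finset.biUnion_subset.2 fun a ha => ?_
    have ha := h2 a (Finset.mem_range.1 ha)
    exact (hU' _ ha).1.trans (hU1 _ ha).1
  · refine ⟨(Finset.range M).image fun a => g (h a), ?_, ?_⟩
    · rw [Finset.card_image_of_injOn, Finset.card_range]
      intro a ha b hb hab
      have ha := Finset.mem_range.1 (Finset.mem_coe.1 ha)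
      have hb := Finset.mem_range.1 (Finset.mem_coe.1 hb)
      simp only at hab
      rcases lt_trichotomy a b with h3 | h3 | h3
      · have := hg1 _ _ (h1 a b h3 hb) (h2 b hb)
        omega
      · exact h3
      · have := hg1 _ _ (h1 b a h3 ha) (h2 a ha)
        omega
    · intro c' hc'
      obtain ⟨a, ha, rfl⟩ := Finset.mem_image.1 hc'
      have ha' := h2 a (Finset.mem_range.1 ha)
      exact (hU' _ ha').2.1.mono (Finset.subset_biUnion_of_mem (fun a => U' (h a)) ha)
  · intro v hv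
    obtain ⟨a, ha, hv⟩ := Finset.mem_biUnion.1 hv
    have ha' := h2 a (Finset.mem_range.1 ha)
    exact (((hU1 _ ha').2.eqN v ((hU' _ ha').1 hv)).mono (Nat.le_succ j)).trans (eqN_upd _ _ _)
  · intro v hv u hu hp
    obtain ⟨a, ha, hv⟩ := Finset.mem_biUnion.1 hv
    obtain ⟨b, hb, hu⟩ := Finset.mem_biUnion.1 hu
    have ha := Finset.mem_range.1 ha
    have hb := Finset.mem_range.1 hb
    have ha' := h2 a ha
    have hb' := h2 b hb
    have hv' := (hU' _ ha').1 hv
    have hu' := (hU' _ hb').1 hu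
    have hvj := (hU1 _ ha').2.coord hv'
    have huj := (hU1 _ hb').2.coord hu'
    have hlt : g (h a) < g (h b) := by
      rw [← hvj, ← huj]
      exact hp.2
    have hab : a < b := by
      rcases lt_trichotomy a b with h3 | h3 | h3
      · exact h3
      · rw [h3] at hlt
        exact (lt_irrefl _ hlt).elim
      · have := hg1 _ _ (h1 b a h3 ha) ha'
        omega
    obtain ⟨k', hk'⟩ := hU2 (h a) (h b) (h1 a b hab hb) hb' v hv'
    rw [hk' u hu', ← hk' (w (h b)) (hw _ hb'), (hU' _ ha').2.2 (h b) hb' v hv]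
    exact hcol a b hab hb

theorem pairs_claim (κ : Type) [Fintype κ] [DecidableEq κ] (j M : ℕ) (hM : 1 ≤ M) (i : ℕ) :
    ∃ N, M ≤ N ∧ ∀ (V : Finset H) (e : H) (c : H → H → κ), Lg i N V e →
      ∃ W, W ⊆ V ∧ Lg i M W e ∧ (∀ v ∈ W, EqN i v e) ∧
        ∃ k : κ, ∀ v ∈ W, ∀ w ∈ W, Pr j v w → c v w = k := by
  rcases Nat.lt_or_ge j i with hji | hij
  swap
  · exact ⟨M, le_rfl, fun V e c h => pairs_low c hij h⟩
  induction i, hji using Nat.le_induction with
  | base => exact pairs_top κ j M hM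
  | succ i hji ih =>
    have hji : j + 1 ≤ i := hji
    rcases isEmpty_or_nonempty κ with hκ | hκ
    · exact ⟨M, le_rfl, fun V e c _ => isEmptyElim (c 0 0)⟩
    obtain ⟨N, hMN, hN⟩ := ih
    refine ⟨max N (Fintype.card κ * M), hMN.trans (le_max_left _ _), fun V e c h => ?_⟩
    obtain ⟨C, hC, hCL⟩ := h
    have hch : ∀ d, ∃ W : Finset H, ∃ k : κ, d ∈ C → (W ⊆ V ∧ Lg i M W (upd e i d) ∧
        (∀ v ∈ W, EqN i v (upd e i d)) ∧ ∀ v ∈ W, ∀ w ∈ W, Pr j v w → c v w = k) := by
      intro d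
      by_cases hd : d ∈ C
      · obtain ⟨W, h1, h2, h3, k, h4⟩ := hN V _ c ((hCL d hd).anti (le_max_left _ _))
        exact ⟨W, k, fun _ => ⟨h1, h2, h3, h4⟩⟩
      · exact ⟨∅, hκ.some, fun h => (hd h).elim⟩
    choose W k hW using hch
    obtain ⟨k0, _, hk0⟩ := Finset.exists_le_card_fiber_of_mul_le_card_of_maps_to
      (s := C) (t := Finset.univ) (f := k) (n := M) (fun _ _ => Finset.mem_univ _)
      (Finset.univ_nonempty) (by rw [Finset.card_univ]; exact (le_max_right _ _).trans hC)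
    set C' := C.filter fun d => k d = k0 with hC'
    refine ⟨C'.biUnion W, ?_, ⟨C', hk0, fun d hd => ?_⟩, ?_, k0, ?_⟩
    · exact Finset.biUnion_subset.2 fun d hd => (hW d (Finset.mem_filter.1 hd).1).1
    · exact (hW d (Finset.mem_filter.1 hd).1).2.1.mono (Finset.subset_biUnion_of_mem W hd)
    · intro v hv
      obtain ⟨d, hd, hv⟩ := Finset.mem_biUnion.1 hv
      exact (((hW d (Finset.mem_filter.1 hd).1).2.2.1 v hv).mono (Nat.le_succ i)).trans
        (eqN_upd _ _ _)
    · intro v hv w hw hp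
      obtain ⟨d, hd, hv⟩ := Finset.mem_biUnion.1 hv
      obtain ⟨d', hd', hw⟩ := Finset.mem_biUnion.1 hw
      obtain ⟨hdC, hdk⟩ := Finset.mem_filter.1 hd
      obtain ⟨hdC', hdk'⟩ := Finset.mem_filter.1 hd'
      have h1 : v i = d := by
        rw [(hW d hdC).2.2.1 v hv i le_rfl, upd_same]
      have h2 : w i = d' := by
        rw [(hW d' hdC').2.2.1 w hw i le_rfl, upd_same]
      have h3 : d = d' := by
        rw [← h1, ← h2]
        exact hp.1 i hji
      subst h3
      rw [← hdk]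
      exact (hW d hdC).2.2.2 v hv w hw hp

/-- (1.4) -/
theorem pairs (κ : Type) [Finite κ] (j M : ℕ) : ∃ N, ∀ (V : Finset H) (c : H → H → κ),
    Large N V → ∃ W, W ⊆ V ∧ Large M W ∧
      ∃ k : κ, ∀ v ∈ W, ∀ w ∈ W, Pr j v w → c v w = k := by
  classical
  have := Fintype.ofFinite κ
  obtain ⟨N, hMN, hN⟩ := pairs_claim κ j (max M 1) (le_max_right _ _) (max M 1)
  refine ⟨N, fun V c h => ?_⟩
  obtain ⟨e, he⟩ := h
  have hN1 : 1 ≤ N := (le_max_right M 1).trans hMN
  obtain ⟨d, hd⟩ := Nat.exists_eq_add_of_le hMN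
  have he' : Lg (max M 1 + d) N V e := by rw [← hd]; exact he
  obtain ⟨e', _, h2⟩ := Lg.down hN1 d he'
  obtain ⟨W, h3, h4, _, h5⟩ := hN V e' c h2
  exact ⟨W, h3, (show Large (max M 1) W from ⟨e', h4⟩).anti (le_max_left _ _), h5⟩

/-! ### (1.5) canonical equivalence relations -/

theorem pairs_levels (M : ℕ) (k : ℕ) : ∃ N, ∀ (V : Finset H) (E : H → H → Prop), Large N V →
    ∃ W, W ⊆ V ∧ Large M W ∧ ∀ j < k, (∀ v ∈ W, ∀ w ∈ W, Pr j v w → E v w) ∨
      (∀ v ∈ W, ∀ w ∈ W, Pr j v w → ¬ E v w) := by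
  induction k with
  | zero => exact ⟨M, fun V E h => ⟨V, Finset.Subset.refl _, h, fun j hj =>
      (Nat.not_lt_zero j hj).elim⟩⟩
  | succ k ih =>
    obtain ⟨N, hN⟩ := ih
    obtain ⟨N', hN'⟩ := pairs Prop k N
    refine ⟨N', fun V E h => ?_⟩
    obtain ⟨W, h1, h2, p, h3⟩ := hN' V E h
    obtain ⟨W', h4, h5, h6⟩ := hN W E h2
    refine ⟨W', h4.trans h1, h5, fun j hj => ?_⟩
    rcases Nat.lt_succ_iff_lt_or_eq.1 hj with hj | rfl
    · exact h6 j hj
    · by_cases hp : p
      · left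
        intro v hv w hw hvw
        rw [h3 v (h4 hv) w (h4 hw) hvw]
        exact hp
      · right
        intro v hv w hw hvw
        rw [h3 v (h4 hv) w (h4 hw) hvw]
        exact hp

theorem Ex.exists_partner {i M : ℕ} (hM : 2 ≤ M) : ∀ {V : Finset H} {e : H}, Ex i M V e →
    ∀ v ∈ V, ∀ j < i, ∃ w ∈ V, EqN (j + 1) v w ∧ w j ≠ v j := by
  induction i with
  | zero => exact fun _ v _ j hj => (Nat.not_lt_zero j hj).elim
  | succ i ih =>
    rintro V e ⟨C, hC, f, hf, rfl⟩ v hv j hj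
    obtain ⟨c, hc, hv⟩ := Finset.mem_biUnion.1 hv
    rcases Nat.lt_succ_iff_lt_or_eq.1 hj with hj | rfl
    · obtain ⟨w, hw, h1, h2⟩ := ih (hf c hc) v hv j hj
      exact ⟨w, Finset.mem_biUnion.2 ⟨c, hc, hw⟩, h1, h2⟩
    · obtain ⟨d, hd, hdc⟩ : ∃ d ∈ C, d ≠ c :=
        Finset.exists_mem_ne (lt_of_lt_of_le (by omega) hC.ge) c
      obtain ⟨w, hw⟩ := (hf d hd).nonempty (by omega)
      refine ⟨w, Finset.mem_biUnion.2 ⟨d, hd, hw⟩, ?_, ?_⟩
      · exact (((hf c hc).eqN v hv).mono (Nat.le_succ _)).trans ((eqN_upd _ _ _).trans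
          ((((hf d hd).eqN w hw).mono (Nat.le_succ _)).trans (eqN_upd _ _ _)).symm)
      · rw [(hf d hd).coord hw, (hf c hc).coord hv]
        exact hdc

/-- in an exact tree every element belongs to a `j`-pair, for all `j` below the height -/
theorem Ex.exists_pr {i M : ℕ} (hM : 2 ≤ M) {V : Finset H} {e : H} (h : Ex i M V e)
    {v : H} (hv : v ∈ V) {j : ℕ} (hj : j < i) : ∃ w ∈ V, Pr j v w ∨ Pr j w v := by
  obtain ⟨w, hw, h1, h2⟩ := h.exists_partner hM v hv j hj
  rcases lt_or_gt_of_ne h2 with h3 | h3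
  · exact ⟨w, hw, Or.inr ⟨h1.symm, h3⟩⟩
  · exact ⟨w, hw, Or.inl ⟨h1, h3⟩⟩

/-- a large set contains `j`-pairs -/
theorem Large.exists_pr {M : ℕ} {V : Finset H} (h : Large M V) {j : ℕ} (hj : j < M)
    (hM : 2 ≤ M) : ∃ v ∈ V, ∃ w ∈ V, Pr j v w := by
  obtain ⟨e, he⟩ := h
  obtain ⟨W, hW, hex⟩ := he.exists_ex
  obtain ⟨v, hv⟩ := hex.nonempty (by omega)
  obtain ⟨w, hw, h1⟩ := hex.exists_pr hM hv hj
  rcases h1 with h1 | h1
  · exact ⟨v, hW hv, w, hW hw, h1⟩
  · exact ⟨w, hW hw, v, hW hv, h1⟩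

/-- (1.5) -/
theorem canonical (M : ℕ) : ∃ N, ∀ (V : Finset H) (E : H → H → Prop), Large N V →
    (∀ v ∈ V, E v v) → (∀ v ∈ V, ∀ w ∈ V, E v w → E w v) →
    (∀ v ∈ V, ∀ w ∈ V, ∀ u ∈ V, E v w → E w u → E v u) →
    ∃ W e n, W ⊆ V ∧ Ex M M W e ∧ n ≤ M ∧ ∀ v ∈ W, ∀ w ∈ W, (E v w ↔ EqN n v w) := by
  classical
  obtain ⟨N, hN⟩ := pairs_levels (max M 2) M
  refine ⟨N, fun V E hV hr hs ht => ?_⟩
  obtain ⟨W, hW, ⟨e, he⟩, hlev⟩ := hN V E hV
  have hM1 : 1 ≤ max M 2 := le_trans (by omega) (le_max_right M 2)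
  obtain ⟨d, hd⟩ := Nat.exists_eq_add_of_le (le_max_left M 2)
  have he' : Lg (M + d) (max M 2) W e := by rw [← hd]; exact he
  obtain ⟨e', _, h2⟩ := Lg.down hM1 d he'
  obtain ⟨W1, hW1, hex⟩ := h2.exists_ex
  -- downward closed
  have hdown : ∀ i j, i < j → j < M → (∀ v ∈ W1, ∀ w ∈ W1, Pr j v w → E v w) →
      ∀ v ∈ W1, ∀ w ∈ W1, Pr i v w → E v w := by
    intro i j hij hj h v hv w hw hp
    obtain ⟨u, hu, h3, h4⟩ := hex.exists_partner (le_max_right M 2) v hv j hj
    have hw3 : EqN (j + 1) w u := ((hp.1.mono (by omega)).symm).trans h3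
    have hwj : w j = v j := (hp.1 j (by omega)).symm
    have hvu : E v u := by
      rcases lt_or_gt_of_ne h4 with h5 | h5
      · exact hs u (hW (hW1 hu)) v (hW (hW1 hv)) (h u hu v hv ⟨h3.symm, h5⟩)
      · exact h v hv u hu ⟨h3, h5⟩
    have huw : E u w := by
      rcases lt_or_gt_of_ne h4 with h5 | h5
      · exact h u hu w hw ⟨hw3.symm, by rw [hwj]; exact h5⟩
      · exact hs w (hW (hW1 hw)) u (hW (hW1 hu)) (h w hw u hu ⟨hw3, by rw [hwj]; exact h5⟩)
    exact ht v (hW (hW1 hv)) u (hW (hW1 hu)) w (hW (hW1 hw)) hvu huw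
  have hfind : ∃ n, n = M ∨ (n < M ∧ ¬ ∀ v ∈ W1, ∀ w ∈ W1, Pr n v w → E v w) := ⟨M, Or.inl rfl⟩
  set n := Nat.find hfind with hn
  have hnM : n ≤ M := Nat.find_min' hfind (Or.inl rfl)
  have hlow : ∀ j < n, ∀ v ∈ W1, ∀ w ∈ W1, Pr j v w → E v w := by
    intro j hj
    have h3 := Nat.find_min hfind hj
    push Not at h3
    exact h3.2 (by omega)
  have hhigh : ∀ j, n ≤ j → j < M → ∀ v ∈ W1, ∀ w ∈ W1, Pr j v w → ¬ E v w := by
    intro j hj hjM
    rcases hlev j hjM with h3 | h3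
    · exfalso
      have h3' : ∀ v ∈ W1, ∀ w ∈ W1, Pr j v w → E v w :=
        fun v hv w hw => h3 v (hW1 hv) w (hW1 hw)
      rcases Nat.find_spec hfind with h4 | h4
      · rw [← hn] at h4
        omega
      · rw [← hn] at h4
        rcases hj.lt_or_eq with h5 | h5
        · exact h4.2 (hdown n j h5 hjM h3')
        · rw [h5] at h4
          exact h4.2 h3'
    · exact fun v hv w hw => h3 v (hW1 hv) w (hW1 hw)
  obtain ⟨W2, hW2, hex2⟩ := (hex.lg.anti (le_max_left M 2)).exists_ex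
  refine ⟨W2, e', n, (hW2.trans hW1).trans hW, hex2, hnM, fun v hv w hw => ?_⟩
  have hvW := hW (hW1 (hW2 hv))
  have hwW := hW (hW1 (hW2 hw))
  by_cases hvw : v = w
  · rw [hvw]
    exact ⟨fun _ => EqN.refl _ _, fun _ => hr w hwW⟩
  · have hvw' : EqN M v w := (hex2.eqN v hv).trans (hex2.eqN w hw).symm
    obtain ⟨j, hj⟩ := Pool.Agent.Helper98.T.exists_pr hvw
    rcases hj with hj | hj
    · have hjM : j < M := hj.eqN_iff.1 hvw'
      rw [hj.eqN_iff]
      constructor
      · intro h3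
        by_contra h4
        exact hhigh j (by omega) hjM v (hW2 hv) w (hW2 hw) hj h3
      · intro h3
        exact hlow j h3 v (hW2 hv) w (hW2 hw) hj
    · have hjM : j < M := hj.eqN_iff.1 hvw'.symm
      have h5 : EqN n v w ↔ j < n := ⟨fun h => hj.eqN_iff.1 h.symm,
        fun h => (hj.eqN_iff.2 h).symm⟩
      rw [h5]
      constructor
      · intro h3
        by_contra h4
        exact hhigh j (by omega) hjM w (hW2 hw) v (hW2 hv) hj (hs v hvW w hwW h3)
      · intro h3
        exact hs w hwW v hvW (hlow j h3 w (hW2 hw) v (hW2 hv) hj)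

end Pool.Agent.Helper98.T
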